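import Mathlib
import Pool.Agent.Run7.h598.TT.AbsMin

/-!
The construction in an abstract form: finitely many holomorphic functions are moved one after the
other, while an area decreases along discs.
-/

set_option autoImplicit false

open Topology Filter Metric Set Polynomial MeasureTheory
open Run7.h598.TT

namespace Run7.h598.ST

section
variable {V J Jc : Type} [NormedAddCommGroup V] [NormedSpace ℂ V] [Fintype Jc]

/-- discs which decrease the functional -/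
def Disc (cf : Jc → V → ℂ) (AN : V → ℝ) (L₀ : Set V) (u : J → V → ℂ) (Bc : Finset J)
    (ff : V → ℂ) (c : ℝ) (k : J) (p : V) : Prop :=
  ∃ (r₀ : ℝ) (γ : ℂ → V), 0 < r₀ ∧ γ 0 = p ∧ DifferentiableOn ℂ γ (ball 0 r₀) ∧
    (∀ t ∈ ball (0 : ℂ) r₀, γ t ∈ L₀ ∧ ff (γ t) ≠ 0 ∧ ∀ i ∈ Bc, i ≠ k → u i (γ t) = u i p) ∧
    DifferentiableOn ℂ (fun t => ff (γ t)) (ball 0 r₀) ∧
    (∃ j, deriv (fun t => cf j (γ t)) 0 ≠ 0) ∧
    ∀ r : ℝ, 0 < r → r < r₀ → ∀ η : ℝ, 0 < η → ∀ q : ℝ → ℝ, Continuous q →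
      ∃ θ : ℝ, AN (γ (circleMap 0 r θ)) + q θ <
        AN (γ 0) + η + (2 * Real.pi)⁻¹ * ∫ θ in (0 : ℝ)..(2 * Real.pi),
          (q θ - 2 * c * ∑ j, ‖cf j (γ (circleMap 0 r θ)) - cf j (γ 0)‖ ^ 2)

/-- the functional -/
noncomputable def VV (cf : Jc → V → ℂ) (τ : Jc → ℂ) (AN : V → ℝ) (ff : V → ℂ) (c δ : ℝ) (x : V) : ℝ :=
  AN x + c * ∑ j, ‖cf j x - τ j‖ ^ 2 - δ * Real.log ‖ff x‖

theorem abs_stage {cf : Jc → V → ℂ} (hcf : ∀ j, Differentiable ℂ (cf j)) {τ : Jc → ℂ}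
    {AN : V → ℝ} (hAN : ∀ p, 0 ≤ AN p) {L₀ : Set V} (hL₀ : IsCompact L₀)
    (hlsc : LowerSemicontinuousOn AN L₀) {u : J → V → ℂ} (hu : ∀ i, Differentiable ℂ (u i))
    {Bc : Finset J} {ff : V → ℂ} (hff : ContinuousOn ff L₀) {c n₀ Y δ e ra rb : ℝ} (hc : 0 < c)
    (hδ : 0 < δ) {k : J}
    (hstep : ∀ p ∈ L₀, ff p ≠ 0 → ∑ j, ‖cf j p - τ j‖ ^ 2 < n₀ →
      (∀ i ∈ Bc, ‖u i p‖ < Y) → Disc cf AN L₀ u Bc ff c k p)
    {uf : V → ℂ} (huf : Differentiable ℂ uf) (hu0 : ∀ x ∈ L₀, ra ≤ ‖u k x‖ → uf x ≠ 0)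
    {p₂ : V} (hp₂ : p₂ ∈ L₀) (hfp₂ : ff p₂ ≠ 0) (hra : ra ≤ ‖u k p₂‖) (hrb : ‖u k p₂‖ ≤ rb)
    (hY : ∀ i ∈ Bc, i ≠ k → ‖u i p₂‖ < Y) (hrbY : rb ≤ Y)
    (H1 : ∀ p ∈ L₀, ra ≤ ‖u k p‖ → ‖u k p‖ ≤ rb → ff p ≠ 0 →
      VV cf τ AN ff c δ p + e * Real.log ‖uf p‖ ≤ VV cf τ AN ff c δ p₂ + e * Real.log ‖uf p₂‖ →
      ∑ j, ‖cf j p - τ j‖ ^ 2 < n₀) :
    ∃ p ∈ L₀, (∀ i ∈ Bc, i ≠ k → u i p = u i p₂) ∧ ra ≤ ‖u k p‖ ∧ ‖u k p‖ ≤ rb ∧ ff p ≠ 0 ∧
      VV cf τ AN ff c δ p + e * Real.log ‖uf p‖ ≤ VV cf τ AN ff c δ p₂ + e * Real.log ‖uf p₂‖ ∧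
      (‖u k p‖ = ra ∨ ‖u k p‖ = rb) := by
  classical
  set L : Set V := L₀ ∩ ({x | ∀ i ∈ Bc, i ≠ k → u i x = u i p₂} ∩
    ({x | ra ≤ ‖u k x‖} ∩ {x | ‖u k x‖ ≤ rb})) with hL
  have hLL₀ : L ⊆ L₀ := fun x hx => hx.1
  have huc : Continuous (fun x => ‖u k x‖) := (hu k).continuous.norm
  have hLc : IsCompact L := by
    have h1 : IsClosed {x : V | ∀ i ∈ Bc, i ≠ k → u i x = u i p₂} := by
      simp only [setOf_forall]
      exact isClosed_iInter fun i => isClosed_iInter fun _ => isClosed_iInter fun _ =>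
        isClosed_eq (hu i).continuous continuous_const
    have h2 : IsClosed {x : V | ra ≤ ‖u k x‖} := isClosed_le continuous_const huc
    have h3 : IsClosed {x : V | ‖u k x‖ ≤ rb} := isClosed_le huc continuous_const
    exact hL₀.inter_right (h1.inter (h2.inter h3))
  have hWW : ∀ x, WW (J := Jc) cf τ AN ff (fun _ => 1) uf c δ 1 e x =
      VV cf τ AN ff c δ x + e * Real.log ‖uf x‖ := by
    intro x
    unfold WW VV
    rw [norm_one, Real.log_one]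
    ring
  have hp₂L : p₂ ∈ L := ⟨hp₂, fun i _ _ => rfl, hra, hrb⟩
  have key := absmin (V := V) (J := Jc) (cf := cf) hcf τ (AN := AN) (L := L)
    (f := ff) (D := fun _ => 1) (u := uf) (c := c) (δ := δ) (κ := 1) (e := e) (p₂ := p₂)
    (Q := fun p => ‖u k p‖ = ra ∨ ‖u k p‖ = rb)
    hAN hc hδ one_pos hLc (hff.mono hLL₀) continuousOn_const huf.continuous.continuousOn
    (fun x hx => hu0 x (hLL₀ hx) hx.2.2.1) (hlsc.mono hLL₀) hp₂L hfp₂ one_ne_zero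
  suffices hst : _ by
    obtain ⟨p, hpL, hfp, -, hWp, hQ⟩ := key hst
    rw [hWW, hWW] at hWp
    exact ⟨p, hLL₀ hpL, hpL.2.1, hpL.2.2.1, hpL.2.2.2, hfp, hWp, hQ⟩
  · intro p hp hfp _ hWp
    rw [hWW, hWW] at hWp
    obtain ⟨hp0, hpu, hpa, hpb⟩ := hp
    have hpa' : ra ≤ ‖u k p‖ := hpa
    have hpb' : ‖u k p‖ ≤ rb := hpb
    have hpu' : ∀ i ∈ Bc, i ≠ k → u i p = u i p₂ := hpu
    rcases hpa'.lt_or_eq with hlt | heq
    swap
    · exact Or.inl (Or.inl heq.symm)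
    rcases hpb'.lt_or_eq with hlt2 | heq2
    swap
    · exact Or.inl (Or.inr heq2)
    right
    have hDlp := H1 p hp0 hpa' hpb' hfp hWp
    obtain ⟨r₀, γ, hr₀, hγ0, hγd, hγp, hffγ, hder, hloc⟩ := hstep p hp0 hfp hDlp (by
      intro i hi
      by_cases hik : i = k
      · rw [hik]; exact hlt2.trans_le hrbY
      · rw [hpu' i hi hik]; exact hY i hi hik)
    have h0 : (0 : ℂ) ∈ ball (0 : ℂ) r₀ := mem_ball_self hr₀
    have hγc : ContinuousAt γ 0 := hγd.continuousOn.continuousAt (isOpen_ball.mem_nhds h0)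
    have hun : ContinuousAt (fun t => ‖u k (γ t)‖) 0 :=
      (ContinuousAt.comp (f := γ) (g := u k) (hu k).continuous.continuousAt hγc).norm
    have e4 : ∀ᶠ t in 𝓝 (0 : ℂ), ra < ‖u k (γ t)‖ :=
      hun.eventually (lt_mem_nhds (by simp only [hγ0]; exact hlt))
    have e5 : ∀ᶠ t in 𝓝 (0 : ℂ), ‖u k (γ t)‖ < rb :=
      hun.eventually (gt_mem_nhds (by simp only [hγ0]; exact hlt2))
    obtain ⟨s, hs, hsb⟩ := Metric.eventually_nhds_iff_ball.1 (e4.and e5)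
    have hmono : ball (0 : ℂ) (min s r₀) ⊆ ball 0 r₀ := ball_subset_ball (min_le_right _ _)
    refine ⟨min s r₀, γ, lt_min hs hr₀, hγ0, hγd.mono hmono, ?_, hffγ.mono hmono,
      differentiableOn_const _, huf.comp_differentiableOn (hγd.mono hmono), hder, ?_⟩
    · intro t ht
      obtain ⟨f4, f5⟩ := hsb t (ball_subset_ball (min_le_left s r₀) ht)
      obtain ⟨g1, g2, g3⟩ := hγp t (hmono ht)
      refine ⟨⟨g1, fun i hi hik => ?_, f4.le, f5.le⟩, g2, one_ne_zero⟩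
      rw [g3 i hi hik]
      exact hpu' i hi hik
    · intro r hr hrr η hη q hq
      exact hloc r hr (hrr.trans_le (min_le_right _ _)) η hη q hq

/-- The iteration. -/
theorem abs_iter [DecidableEq J] {cf : Jc → V → ℂ} (hcf : ∀ j, Differentiable ℂ (cf j)) {τ : Jc → ℂ}
    {AN : V → ℝ} (hAN : ∀ p, 0 ≤ AN p) {L₀ : Set V} (hL₀ : IsCompact L₀)
    (hlsc : LowerSemicontinuousOn AN L₀) {u : J → V → ℂ} (hu : ∀ i, Differentiable ℂ (u i))
    {Bc : Finset J} {ff : V → ℂ} (hff : ContinuousOn ff L₀) (hff1 : ∀ x ∈ L₀, ‖ff x‖ ≤ 1)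
    {c n₀ Y δ θ Rh Z Λ G ra : ℝ} (hc : 0 < c) (hδ : 0 < δ) (hθ : 0 < θ) (hRh : 1 ≤ Rh)
    (hra0 : 0 < ra) (hra1 : ra ≤ 1) (hraG : -Real.log ra ≤ G) (hY : 4 * Rh < Y)
    (hYZ : Z ≤ Real.log Y) (hΛ : Real.log (4 * Rh) ≤ Λ) (hZ : 2 * (Λ + G) ≤ Z) (hZ0 : 0 < Z)
    (hstep : ∀ k ∈ Bc, ∀ p ∈ L₀, ff p ≠ 0 → ∑ j, ‖cf j p - τ j‖ ^ 2 < n₀ →
      (∀ i ∈ Bc, ‖u i p‖ < Y) → Disc cf AN L₀ u Bc ff c k p)
    {ty : J → Prop} {x₂ : V} (hx₂ : x₂ ∈ L₀) (hfx₂ : ff x₂ ≠ 0)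
    (hVx₂ : VV cf τ AN ff c δ x₂ ≤ θ) (hux₂ : ∀ i ∈ Bc, ‖u i x₂‖ ≤ 4 * Rh)
    (hst : ∀ i ∈ Bc, ty i → ‖u i x₂‖ ≤ 2 * Rh)
    (hsmall : 2 ^ Bc.card * (2 * θ) ≤ c * n₀) :
    ∀ S : Finset J, S ⊆ Bc →
    ∃ p ∈ L₀, ff p ≠ 0 ∧ VV cf τ AN ff c δ p + θ ≤ 2 ^ S.card * (2 * θ) ∧
      (∀ l ∈ Bc, l ∉ S → u l p = u l x₂) ∧
      ∀ l ∈ S, (ty l → ‖u l p‖ = 2 * Rh) ∧ (¬ ty l → ‖u l p‖ ≤ ra) := by
  classical
  have hVge : ∀ x ∈ L₀, ff x ≠ 0 → c * ∑ j, ‖cf j x - τ j‖ ^ 2 ≤ VV cf τ AN ff c δ x := by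
    intro x hx hfx
    have h1 : Real.log ‖ff x‖ ≤ 0 := Real.log_nonpos (norm_nonneg _) (hff1 x hx)
    have h3 : δ * Real.log ‖ff x‖ ≤ 0 := mul_nonpos_of_nonneg_of_nonpos hδ.le h1
    have := hAN x
    unfold VV
    linarith
  have hV0 : ∀ x ∈ L₀, ff x ≠ 0 → 0 ≤ VV cf τ AN ff c δ x := fun x hx hfx =>
    (mul_nonneg hc.le (Finset.sum_nonneg fun _ _ => by positivity)).trans (hVge x hx hfx)
  have hΛ0 : 0 ≤ Λ := (Real.log_nonneg (by linarith)).trans hΛ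
  have hG0 : 0 ≤ G := by
    have : Real.log ra ≤ 0 := Real.log_nonpos hra0.le hra1
    linarith
  intro S
  induction S using Finset.induction_on with
  | empty =>
    intro _
    refine ⟨x₂, hx₂, hfx₂, ?_, fun _ _ _ => rfl, fun l hl => absurd hl (Finset.notMem_empty l)⟩
    simp only [Finset.card_empty, pow_zero, one_mul]
    linarith
  | insert k S hk ih =>
    intro hS
    obtain ⟨p₂, hp₂, hfp₂, hVp₂, hpu, hpd⟩ := ih (fun l hl => hS (Finset.mem_insert_of_mem hl))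
    have hkB : k ∈ Bc := hS (Finset.mem_insert_self k S)
    have hcard : (insert k S).card = S.card + 1 := Finset.card_insert_of_notMem hk
    have hcn : S.card + 1 ≤ Bc.card := by
      rw [← hcard]
      exact Finset.card_le_card hS
    obtain ⟨V₀, hV₀⟩ : ∃ V₀ : ℝ, V₀ = VV cf τ AN ff c δ p₂ := ⟨_, rfl⟩
    have hV₀0 : 0 ≤ V₀ := by rw [hV₀]; exact hV0 p₂ hp₂ hfp₂
    rw [← hV₀] at hVp₂
    have hV₁ : 2 * (V₀ + θ) ≤ 2 ^ (S.card + 1) * (2 * θ) := by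
      rw [pow_succ]; linarith
    have hsm : 2 * (V₀ + θ) ≤ c * n₀ := by
      have h1 : (2 : ℝ) ^ (S.card + 1) ≤ 2 ^ Bc.card := pow_le_pow_right₀ (by norm_num) hcn
      have h2 := mul_le_mul_of_nonneg_right h1 (by positivity : (0 : ℝ) ≤ 2 * θ)
      linarith
    -- all functions are bounded at `p₂`
    have hb2 : ∀ i ∈ Bc, ‖u i p₂‖ ≤ 4 * Rh := by
      intro i hi
      by_cases hiS : i ∈ S
      · obtain ⟨h1, h2⟩ := hpd i hiS
        by_cases ht : ty i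
        · rw [h1 ht]; linarith
        · have := h2 ht; linarith
      · rw [hpu i hi hiS]; exact hux₂ i hi
    have hres : ∃ p ∈ L₀, (∀ i ∈ Bc, i ≠ k → u i p = u i p₂) ∧
        ((ty k → ‖u k p‖ = 2 * Rh) ∧ (¬ ty k → ‖u k p‖ ≤ ra)) ∧ ff p ≠ 0 ∧
        VV cf τ AN ff c δ p ≤ V₀ + (V₀ + θ) := by
      by_cases hty : ty k
      · -- escape
        obtain ⟨p, hp, hpu', -, hp2, hfp, hWp, hQ⟩ := abs_stage hcf (τ := τ) hAN hL₀ hlsc hu hff
          (n₀ := n₀) (Y := Y) (δ := δ) (e := 0) (ra := -1) (rb := 2 * Rh) hc hδ (k := k)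
          (hstep k hkB) (uf := fun _ => 1) (differentiable_const _) (fun _ _ _ => one_ne_zero)
          hp₂ hfp₂ (by have := norm_nonneg (u k p₂); linarith)
          (by rw [hpu k hkB hk]; exact hst k hkB hty)
          (fun i hi _ => (hb2 i hi).trans_lt hY) (by linarith)
          (by
            intro p hp _ _ hfp hW
            simp only [zero_mul, add_zero, ← hV₀] at hW
            have h1 := hVge p hp hfp
            have h2 : c * ∑ j, ‖cf j p - τ j‖ ^ 2 < c * n₀ := by linarith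
            exact lt_of_mul_lt_mul_left h2 hc.le)
        simp only [zero_mul, add_zero, ← hV₀] at hWp
        refine ⟨p, hp, hpu', ⟨fun _ => ?_, fun h => absurd hty h⟩, hfp, by linarith⟩
        rcases hQ with h1 | h1
        · have := norm_nonneg (u k p)
          linarith
        · exact h1
      · -- sink
        rcases le_or_gt ‖u k p₂‖ ra with htriv | hbig
        · exact ⟨p₂, hp₂, fun i _ _ => rfl, ⟨fun h => absurd h hty, fun _ => htriv⟩, hfp₂, by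
            rw [← hV₀]; linarith⟩
        set κ : ℝ := 2 * (V₀ + θ) / Z with hκ
        have hκ0 : 0 < κ := by positivity
        have hκZ : κ * Z = 2 * (V₀ + θ) := by rw [hκ]; field_simp
        have hκΛ : κ * (Λ + G) ≤ V₀ + θ := by
          have h1 := mul_le_mul_of_nonneg_left hZ hκ0.le
          rw [hκZ] at h1
          linarith
        have hκΛ' : κ * Λ + κ * G ≤ V₀ + θ := by rw [← mul_add]; exact hκΛ
        have hκG : 0 ≤ κ * G := by positivity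
        have hlu₂ : Real.log ‖u k p₂‖ ≤ Λ :=
          (Real.log_le_log (hra0.trans hbig) (hb2 k hkB)).trans hΛ
        have hkl : κ * Real.log ‖u k p₂‖ ≤ κ * Λ := mul_le_mul_of_nonneg_left hlu₂ hκ0.le
        have hbound : ∀ p ∈ L₀, ra ≤ ‖u k p‖ → VV cf τ AN ff c δ p + κ * Real.log ‖u k p‖ ≤
            VV cf τ AN ff c δ p₂ + κ * Real.log ‖u k p₂‖ →
            VV cf τ AN ff c δ p ≤ V₀ + (V₀ + θ) := by
          intro p _ hup hW
          rw [← hV₀] at hW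
          have h1 : -G ≤ Real.log ‖u k p‖ := by
            have := Real.log_le_log hra0 hup
            linarith
          have h2 := mul_le_mul_of_nonneg_left h1 hκ0.le
          linarith
        obtain ⟨p, hp, hpu', hp1, hp2, hfp, hWp, hQ⟩ := abs_stage hcf (τ := τ) hAN hL₀ hlsc hu hff
          (n₀ := n₀) (Y := Y) (δ := δ) (e := κ) (ra := ra) (rb := Y) hc hδ (k := k)
          (hstep k hkB) (uf := u k) (hu k) (fun x _ hx => norm_pos_iff.mp (hra0.trans_le hx))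
          hp₂ hfp₂ hbig.le ((hb2 k hkB).trans hY.le)
          (fun i hi _ => (hb2 i hi).trans_lt hY) le_rfl
          (by
            intro p hp hup _ hfp hW
            have h1 := hVge p hp hfp
            have h3 := hbound p hp hup hW
            have h2 : c * ∑ j, ‖cf j p - τ j‖ ^ 2 < c * n₀ := by linarith
            exact lt_of_mul_lt_mul_left h2 hc.le)
        refine ⟨p, hp, hpu', ⟨fun h => absurd h hty, fun _ => ?_⟩, hfp, hbound p hp hp1 hWp⟩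
        rcases hQ with h1 | h1
        · exact h1.le
        · exfalso
          rw [h1, ← hV₀] at hWp
          have h2 := hV0 p hp hfp
          have h3 := mul_le_mul_of_nonneg_left hYZ hκ0.le
          linarith
    obtain ⟨p, hp, hpu', hpd', hfp, hVp⟩ := hres
    refine ⟨p, hp, hfp, ?_, ?_, ?_⟩
    · rw [hcard]
      linarith
    · intro l hl hlS
      rw [Finset.mem_insert, not_or] at hlS
      rw [hpu' l hl hlS.1]
      exact hpu l hl hlS.2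
    · intro l hl
      rcases Finset.mem_insert.mp hl with rfl | hl'
      · exact hpd'
      · have hlk : l ≠ k := fun h => hk (h ▸ hl')
        have hlB : l ∈ Bc := hS hl
        rw [hpu' l hlB hlk]
        exact hpd l hl'

end

end Run7.h598.ST
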