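import Mathlib
import Pool.Agent.Run7.h598.ST.Abs
import Pool.Agent.Run7.h598.TT.RLw
import Pool.Agent.Run7.h598.TT.Crv

/-!
Linear families of polynomials: fields and rigid discs.
-/

set_option autoImplicit false

open Topology Filter Metric Set Polynomial MeasureTheory
open Pool.Agent.H713R3.ZA
open Pool.Agent.H713R5.QJ
open Run7.h598.TT

namespace Run7.h598.ST

/-- a linear family of polynomials of degree `n + 1` with `r` classes of critical points -/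
structure Fm (a : ℂ) {n s r : ℕ} (ι : PE s →L[ℂ] PE n) (cls : Fin n → Fin r) (rep : Fin r → Fin n)
    (κ : Fin r → Option (Fin s)) : Prop where
  ha : a ≠ 0
  hn : 1 ≤ n
  inj : Function.Injective ι
  κi : Function.Injective κ
  crp : ∀ c, cls (rep c) = c
  nrm : ∀ (y : PE s) (i : Fin n) (l : ℕ), ‖(fx a n (ι y))^[l] (ι y (some i))‖ =
    ‖(fx a n (ι y))^[l] (ι y (some (rep (cls i))))‖
  cen : (∀ y, (fam a n (ι y)).coeff n = (fam a n (ι 0)).coeff n) ∨ (∀ c, κ c ≠ none)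

/-- functions along integral curves -/
theorem along {V : Type} [NormedAddCommGroup V] [NormedSpace ℂ V] {ρ : ℝ} {γ γ' : ℂ → V}
    {Ω : Set V} {g : V → ℂ} (hΩ : IsOpen Ω) (hg : DifferentiableOn ℂ g Ω)
    (hγ : ∀ t ∈ ball (0 : ℂ) ρ, HasDerivAt γ (γ' t) t) (hm : ∀ t ∈ ball (0 : ℂ) ρ, γ t ∈ Ω)
    (h0 : ∀ t ∈ ball (0 : ℂ) ρ, fderiv ℂ g (γ t) (γ' t) = 0) :
    ∀ t ∈ ball (0 : ℂ) ρ, g (γ t) = g (γ 0) := by
  refine gdp_const (f := fun t => g (γ t)) ?_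
  intro t ht
  have h1 := (hg.differentiableAt (hΩ.mem_nhds (hm t ht))).hasFDerivAt.comp_hasDerivAt t (hγ t ht)
  rw [h0 t ht] at h1
  exact h1

/-- a polynomial of the family determines the critical points up to a finite ambiguity -/
theorem const_of_fam {a : ℂ} (ha : a ≠ 0) {n : ℕ} {ρ : ℝ} (hρ : 0 < ρ) {γ : ℂ → PE n}
    (hγ : ContinuousOn γ (ball 0 ρ))
    (h : ∀ t ∈ ball (0 : ℂ) ρ, fam a n (γ t) = fam a n (γ 0)) :
    ∀ t ∈ ball (0 : ℂ) ρ, γ t = γ 0 := by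
  have h0 : (0 : ℂ) ∈ ball (0 : ℂ) ρ := mem_ball_self hρ
  have hc : IsPreconnected (ball (0 : ℂ) ρ) := (convex_ball 0 ρ).isPreconnected
  intro t ht
  funext o
  rcases o with _ | i
  · have h1 := congrArg (fun p : ℂ[X] => p.coeff 0) (h t ht)
    simp only [coeff_fam_zero] at h1
    exact h1
  · set F : Set ℂ := {z | (fam a n (γ 0)).derivative.eval z = 0} with hF
    have hne : (fam a n (γ 0)).derivative ≠ 0 := by
      rw [derivative_fam]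
      unfold dfam
      apply mul_ne_zero
      · rw [Ne, C_eq_zero]
        exact mul_ne_zero ha (Nat.cast_add_one_ne_zero n)
      · exact (monic_prod_of_monic _ _ (fun i _ => monic_X_sub_C _)).ne_zero
    have hFf : F.Finite := by
      refine ((fam a n (γ 0)).derivative.rootSet_finite ℂ).subset ?_
      intro z hz
      have hz' : (fam a n (γ 0)).derivative.eval z = 0 := hz
      rw [mem_rootSet]
      refine ⟨hne, ?_⟩
      simpa using hz'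
    refine hc.constant_of_mapsTo (T := F) hFf.isDiscrete (f := fun s => γ s (some i))
      ((continuous_apply (some i)).comp_continuousOn hγ) ?_ ht h0
    intro s hs
    show (fam a n (γ 0)).derivative.eval (γ s (some i)) = 0
    rw [← h s hs, derivative_fam]
    unfold dfam
    rw [eval_mul, eval_prod, Finset.prod_eq_zero (Finset.mem_univ i) (by simp), mul_zero]

section
variable {a : ℂ} {n s r : ℕ} {ι : PE s →L[ℂ] PE n} {cls : Fin n → Fin r} {rep : Fin r → Fin n}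
  {κ : Fin r → Option (Fin s)}

theorem cfι_diff (a : ℂ) (n : ℕ) (ι : PE s →L[ℂ] PE n) (j : ℕ) :
    Differentiable ℂ (fun y => cf a n j (ι y)) := (cf_diff a n j).comp ι.differentiable

/-- the fields -/
theorem exists_fld (H : HH) (F : Fm a ι cls rep κ) {Ω : Set (PE s)} (hΩo : IsOpen Ω)
    (hΩne : Ω.Nonempty) {g : Fin r → PE s → ℂ} (hg : ∀ c, DifferentiableOn ℂ (g c) Ω) (k : Fin r) :
    ∃ (X : PE s → PE s) (j : ℕ), j < n + 2 ∧ DifferentiableOn ℂ X Ω ∧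
      (∀ x ∈ Ω, ∀ c, c ≠ k → fderiv ℂ (g c) x (X x) = 0) ∧
      (∀ x ∈ Ω, fderiv ℂ (fun y => cf a n n (ι y)) x (X x) = 0) ∧
      ∃ x ∈ Ω, fderiv ℂ (fun y => cf a n j (ι y)) x (X x) ≠ 0 := by
  classical
  set E' : Option (Fin s) → PE s → ℂ := Function.extend κ g (fun _ => fun y => cf a n n (ι y))
    with hE'
  have hE1 : ∀ c, E' (κ c) = g c := fun c => F.κi.extend_apply g _ c
  have hE2 : ∀ c', (¬ ∃ c, κ c = c') → E' c' = fun y => cf a n n (ι y) := fun c' h =>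
    Function.extend_apply' g _ c' h
  have hEd : ∀ c', DifferentiableOn ℂ (E' c') Ω := by
    intro c'
    by_cases h : ∃ c, κ c = c'
    · obtain ⟨c, rfl⟩ := h
      rw [hE1]; exact hg c
    · rw [hE2 c' h]; exact (cfι_diff a n ι n).differentiableOn
  obtain ⟨X, hXd, ⟨x₀, hx₀, hX₀⟩, hXk⟩ := exists_field H.cross (n := s) hΩo hΩne
    (fun i x => fderiv ℂ (E' (if some i = κ k then none else some i)) x)
    (fun i v => Pool.Agent.Helper540.differentiableOn_fderiv_apply hΩo (hEd _) v)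
  have hrow : ∀ x ∈ Ω, ∀ c', c' ≠ κ k → fderiv ℂ (E' c') x (X x) = 0 := by
    intro x hx c' hc'
    rcases hcc : c' with _ | i
    · rcases hk : κ k with _ | i₀
      · exact absurd (hcc.trans hk.symm) hc'
      · have := hXk x hx i₀
        rw [if_pos hk.symm] at this
        exact this
    · have := hXk x hx i
      rw [if_neg (by rw [← hcc]; exact hc')] at this
      exact this
  have hcen : ∀ x ∈ Ω, fderiv ℂ (fun y => cf a n n (ι y)) x (X x) = 0 := by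
    intro x hx
    rcases F.cen with h | h
    · have h1 : (fun y => cf a n n (ι y)) = fun _ => (fam a n (ι 0)).coeff n := funext h
      rw [h1]
      simp
    · have h2 := hrow x hx none (fun h3 => h k h3.symm)
      rw [hE2 none (fun ⟨c, hc⟩ => h c hc)] at h2
      exact h2
  -- the field moves the polynomial
  obtain ⟨j, x, hx, hj⟩ : ∃ j : ℕ, ∃ x ∈ Ω, fderiv ℂ (fun y => cf a n j (ι y)) x (X x) ≠ 0 := by
    by_contra hcon
    push Not at hcon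
    obtain ⟨ρ, hρ, hflow⟩ := H.flow (PE s) Ω {x₀} X hΩo isCompact_singleton
      (singleton_subset_iff.mpr hx₀) hXd
    obtain ⟨γ, hγ0, hγ⟩ := hflow x₀ rfl
    have h0 : (0 : ℂ) ∈ ball (0 : ℂ) ρ := mem_ball_self hρ
    have hγc : ContinuousOn γ (ball 0 ρ) := fun t ht =>
      (hγ t ht).2.continuousAt.continuousWithinAt
    have hfam : ∀ t ∈ ball (0 : ℂ) ρ, fam a n (ι (γ t)) = fam a n (ι (γ 0)) := by
      intro t ht
      ext j
      exact along (g := fun y => cf a n j (ι y)) hΩo (cfι_diff a n ι j).differentiableOn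
        (fun t ht => (hγ t ht).2) (fun t ht => (hγ t ht).1)
        (fun t ht => hcon j _ (hγ t ht).1) t ht
    have hιγ := const_of_fam F.ha hρ (ι.continuous.comp_continuousOn hγc) hfam
    have hγk : ∀ t ∈ ball (0 : ℂ) ρ, γ t = x₀ := by
      intro t ht
      rw [← hγ0]
      exact F.inj (hιγ t ht)
    have h1 : HasDerivAt γ (X x₀) 0 := by
      have := (hγ 0 h0).2
      rwa [hγ0] at this
    have h2 : HasDerivAt γ 0 0 := by
      have h3 : HasDerivAt (fun _ : ℂ => x₀) (0 : PE s) (0 : ℂ) := hasDerivAt_const _ _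
      refine h3.congr_of_eventuallyEq ?_
      filter_upwards [isOpen_ball.mem_nhds h0] with t ht
      exact hγk t ht
    exact hX₀ (h1.unique h2)
  have hjn : j < n + 2 := by
    by_contra hcon
    apply hj
    have h1 : (fun y => cf a n j (ι y)) = fun _ => 0 := by
      funext y
      exact coeff_eq_zero_of_natDegree_lt (by have := natDegree_fam_le a n (ι y); omega)
    rw [h1]
    simp
  refine ⟨X, j, hjn, hXd, ?_, hcen, x, hx, hj⟩
  intro x hx c hc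
  have h1 := hrow x hx (κ c) (fun h => hc (F.κi h))
  rwa [hE1] at h1

/-! ### The modulus of Böttcher's coordinate -/

theorem QQ_ratio (a : ℂ) (n : ℕ) (v v' : ℂ) (l : ℕ) :
    ‖(QQ a n)^[l] v‖ * ‖v'‖ ^ ((n + 1) ^ l) = ‖(QQ a n)^[l] v'‖ * ‖v‖ ^ ((n + 1) ^ l) := by
  induction l with
  | zero => simp [mul_comm]
  | succ l ih =>
    rw [Function.iterate_succ_apply', Function.iterate_succ_apply']
    have h1 : ∀ w : ℂ, ‖QQ a n w‖ = ‖a‖ * ‖w‖ ^ (n + 1) := fun w => by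
      unfold QQ; rw [norm_mul, norm_pow]
    rw [h1, h1, pow_succ (n + 1) l, pow_mul, pow_mul, mul_assoc, mul_assoc, ← mul_pow, ← mul_pow, ih]

theorem phi_le {B R C₁ R₁ R₃ : ℝ} {ψ φ : PE n × ℂ → ℂ} (hn : 1 ≤ n)
    (hb : BO a n B R C₁ R₁ R₃ ψ φ) {x : PE n} (hx : x ∈ ball (0 : PE n) B) {w w' : ℂ}
    (hw : R₃ < ‖w‖) (hw' : R₃ < ‖w'‖) (h : ∀ l : ℕ, ‖(fx a n x)^[l] w‖ = ‖(fx a n x)^[l] w'‖) :
    ‖φ (x, w)‖ ≤ ‖φ (x, w')‖ := by
  have e1 := hb.hR; have e2 := hb.hC; have e3 := hb.hR₁; have e4 := hb.hR₃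
  have hR₁ : 0 < R₁ := by linarith
  have hv : ∀ z : ℂ, R₃ < ‖z‖ → R₁ < ‖φ (x, z)‖ := by
    intro z hz
    have h3 := hb.φc x hx z hz
    have h4 := norm_sub_norm_le z (φ (x, z))
    rw [norm_sub_rev] at h4
    linarith
  have hclose : ∀ z : ℂ, R₃ < ‖z‖ → ∀ l : ℕ,
      ‖(fx a n x)^[l] z - (QQ a n)^[l] (φ (x, z))‖ ≤ C₁ := by
    intro z hz l
    have h1 := hb.fe_iter hx (hv z hz) l
    rw [hb.ψφ x hx z hz] at h1
    rw [h1]
    exact hb.ψc x hx _ (hb.QQ_iter (hv z hz) l)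
  by_contra hcon
  push Not at hcon
  set v := φ (x, w) with hvd
  set v' := φ (x, w') with hvd'
  have hv'0 : 0 < ‖v'‖ := hR₁.trans (hv w' hw')
  set t : ℝ := ‖v‖ / ‖v'‖ with ht
  have ht1 : 1 < t := (one_lt_div hv'0).mpr hcon
  have hvt : ‖v‖ = t * ‖v'‖ := by rw [ht]; field_simp
  obtain ⟨m, hm⟩ := pow_unbounded_of_one_lt (1 + 2 * C₁ / R₁) ht1
  -- a level
  obtain ⟨l, hl⟩ : ∃ l : ℕ, m ≤ (n + 1) ^ l := by
    obtain ⟨l, hl⟩ := pow_unbounded_of_one_lt m (show 1 < n + 1 by omega)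
    exact ⟨l, hl.le⟩
  have hpow : 1 + 2 * C₁ / R₁ < t ^ ((n + 1) ^ l) := hm.trans_le (pow_le_pow_right₀ ht1.le hl)
  have hrat := QQ_ratio a n v v' l
  rw [hvt, mul_pow] at hrat
  have hv'p : 0 < ‖v'‖ ^ ((n + 1) ^ l) := pow_pos hv'0 _
  have hrat2 : ‖(QQ a n)^[l] v‖ = ‖(QQ a n)^[l] v'‖ * t ^ ((n + 1) ^ l) := by
    have h1 : ‖(QQ a n)^[l] v‖ * ‖v'‖ ^ ((n + 1) ^ l) =
        (‖(QQ a n)^[l] v'‖ * t ^ ((n + 1) ^ l)) * ‖v'‖ ^ ((n + 1) ^ l) := by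
      rw [hrat]; ring
    exact mul_right_cancel₀ hv'p.ne' h1
  have h5 := hclose w hw l
  have h6 := hclose w' hw' l
  have h7 := norm_sub_norm_le ((QQ a n)^[l] v) ((fx a n x)^[l] w)
  rw [norm_sub_rev] at h7
  have h8 := norm_sub_norm_le ((fx a n x)^[l] w') ((QQ a n)^[l] v')
  have h9 := h l
  have h10 := hb.QQ_iter (hv w' hw') l
  have h11 : ‖(QQ a n)^[l] v‖ - ‖(QQ a n)^[l] v'‖ ≤ 2 * C₁ := by linarith
  rw [hrat2] at h11
  have h12 : R₁ * (2 * C₁ / R₁) = 2 * C₁ := by field_simp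
  have h13 : R₁ * (2 * C₁ / R₁) < ‖(QQ a n)^[l] v'‖ * (t ^ ((n + 1) ^ l) - 1) := by
    have h14 : 0 < 2 * C₁ / R₁ := by positivity
    have h15 : 2 * C₁ / R₁ < t ^ ((n + 1) ^ l) - 1 := by linarith
    exact mul_lt_mul h10 h15.le h14 (norm_nonneg _)
  linarith

theorem phi_norm_eq {B R C₁ R₁ R₃ : ℝ} {ψ φ : PE n × ℂ → ℂ} (hn : 1 ≤ n)
    (hb : BO a n B R C₁ R₁ R₃ ψ φ) {x : PE n} (hx : x ∈ ball (0 : PE n) B) {w w' : ℂ}
    (hw : R₃ < ‖w‖) (hw' : R₃ < ‖w'‖) (h : ∀ l : ℕ, ‖(fx a n x)^[l] w‖ = ‖(fx a n x)^[l] w'‖) :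
    ‖φ (x, w)‖ = ‖φ (x, w')‖ :=
  le_antisymm (phi_le hn hb hx hw hw' h) (phi_le hn hb hx hw' hw fun l => (h l).symm)

/-- holomorphic functions of constant modulus -/
theorem const_of_norm {ρ : ℝ} {f : ℂ → ℂ} (hf : DifferentiableOn ℂ f (ball 0 ρ))
    (h : ∀ t ∈ ball (0 : ℂ) ρ, ‖f t‖ = ‖f 0‖) : ∀ t ∈ ball (0 : ℂ) ρ, f t = f 0 := by
  intro t ht
  have hρ : 0 < ρ := (norm_nonneg t).trans_lt (mem_ball_zero_iff.mp ht)
  have h0 : (0 : ℂ) ∈ ball (0 : ℂ) ρ := mem_ball_self hρ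
  have key := Complex.eqOn_of_isPreconnected_of_isMaxOn_norm
    ((convex_ball (0 : ℂ) ρ).isPreconnected) isOpen_ball hf h0
    (fun s hs => (h s hs).le)
  exact key ht

/-! ### The environment -/

/-- the environment of the family -/
structure EnvS (a : ℂ) (n s M : ℕ) (ι : PE s →L[ℂ] PE n)
    (B R C₁ R₁ R₃ R₇ r₁ r₂ R₄ R₅ rg c₀ : ℝ) (v : ℂ) (ψ φ : PE n × ℂ → ℂ)
    (Ee : Finset (Fin n)) (Ω : Set (PE s)) : Prop where
  hb : BO a n B R C₁ R₁ R₃ ψ φ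
  hR₇ : R₃ + C₁ ≤ R₇
  hKL : KL a n 1 B (1 / 2) (1 / 2) r₁ r₂
  hR₄ : R₇ + 3 * C₁ < R₄
  hR₅ : R₄ < R₅
  hc₀ : 0 < c₀
  hv : ball v rg ⊆ {z | R₄ < ‖z‖ ∧ ‖z‖ < R₅}
  hgain : ∀ x ∈ ball (0 : PE n) B, ∀ y ∈ ball (0 : PE n) B,
    (fam a n x).coeff n = (fam a n y).coeff n →
    Pool.Agent.H713R4.RB.Gain (n + 1) R₄ R₅ v v rg c₀ (wv a n x) (wv a n y)
  hΩo : IsOpen Ω
  hΩB : ∀ y ∈ Ω, ι y ∈ ball (0 : PE n) B
  hΩE : ∀ y ∈ Ω, ∀ i ∈ Ee, R₃ + 2 * C₁ < ‖(fx a n (ι y))^[M] (ι y (some i))‖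

/-- the level `N` area -/
noncomputable def ANs (a : ℂ) (n N : ℕ) (R₃ R₇ r₁ : ℝ) (φ : PE n × ℂ → ℂ) (ι : PE s →L[ℂ] PE n)
    (y : PE s) : ℝ :=
  (volume (BN a n 1 R₃ R₇ φ ∅ id (r₁ / 2) 1 N (ι y))).toReal

/-- Rigid discs in the family. -/
theorem disc_s (H : HH) (F : Fm a ι cls rep κ) {M N : ℕ}
    {B R C₁ R₁ R₃ R₇ r₁ r₂ R₄ R₅ rg c₀ : ℝ} {v : ℂ} {ψ φ : PE n × ℂ → ℂ}
    {Ee : Finset (Fin n)} {Ω : Set (PE s)}
    (E : EnvS a n s M ι B R C₁ R₁ R₃ R₇ r₁ r₂ R₄ R₅ rg c₀ v ψ φ Ee Ω)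
    {Ec : Finset (Fin r)} (hEc : ∀ i, i ∈ Ee ↔ cls i ∈ Ec)
    {g : Fin r → PE s → ℂ} (hg : ∀ c, DifferentiableOn ℂ (g c) Ω)
    (hgE : ∀ c ∈ Ec, ∀ y, g c y = φ (ι y, (fx a n (ι y))^[M] (ι y (some (rep c)))))
    {k : Fin r} (hk : k ∉ Ec) {X : PE s → PE s} {j : ℕ} (hj : j < n + 2)
    (hXd : DifferentiableOn ℂ X Ω)
    (hXg : ∀ x ∈ Ω, ∀ c, c ≠ k → fderiv ℂ (g c) x (X x) = 0)
    (hXc : ∀ x ∈ Ω, fderiv ℂ (fun y => cf a n n (ι y)) x (X x) = 0)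
    {p : PE s} (hp : p ∈ Ω) (hpj : fderiv ℂ (fun y => cf a n j (ι y)) p (X p) ≠ 0)
    (hLB : ∀ c, c ∉ Ec → ∀ m ≤ N, ‖(fx a n (ι p))^[m] (ι p (some (rep c)))‖ < R₃) :
    ∃ (r₀ : ℝ) (γ : ℂ → PE s), 0 < r₀ ∧ γ 0 = p ∧ DifferentiableOn ℂ γ (ball 0 r₀) ∧
      (∀ t ∈ ball (0 : ℂ) r₀, γ t ∈ Ω ∧ ∀ c, c ≠ k → g c (γ t) = g c p) ∧
      (∃ j : Fin (n + 2), deriv (fun t => cf a n j (ι (γ t))) 0 ≠ 0) ∧
      ∀ r : ℝ, 0 < r → r < r₀ → ∀ η : ℝ, 0 < η → ∀ q : ℝ → ℝ, Continuous q →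
        ∃ θ : ℝ, ANs a n N R₃ R₇ r₁ φ ι (γ (circleMap 0 r θ)) + q θ <
          ANs a n N R₃ R₇ r₁ φ ι (γ 0) + η + (2 * Real.pi)⁻¹ *
            ∫ θ in (0 : ℝ)..(2 * Real.pi), (q θ - 2 * (c₀ / 2) * ∑ j : Fin (n + 2),
              ‖cf a n j (ι (γ (circleMap 0 r θ))) - cf a n j (ι (γ 0))‖ ^ 2) := by
  classical
  have hb := E.hb
  have b1 := hb.hR; have b2 := hb.hC; have b3 := hb.hR₁; have b4 := hb.hR₃
  obtain ⟨ρ, hρ, hflow⟩ := H.flow (PE s) Ω {p} X E.hΩo isCompact_singleton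
    (singleton_subset_iff.mpr hp) hXd
  obtain ⟨γ, hγ0, hγ⟩ := hflow p rfl
  have h0 : (0 : ℂ) ∈ ball (0 : ℂ) ρ := mem_ball_self hρ
  have hγΩ : ∀ t ∈ ball (0 : ℂ) ρ, γ t ∈ Ω := fun t ht => (hγ t ht).1
  have hγd' : ∀ t ∈ ball (0 : ℂ) ρ, HasDerivAt γ (X (γ t)) t := fun t ht => (hγ t ht).2
  have hγd : DifferentiableOn ℂ γ (ball 0 ρ) := fun t ht =>
    (hγd' t ht).differentiableAt.differentiableWithinAt
  have hιγd : DifferentiableOn ℂ (fun t => ι (γ t)) (ball 0 ρ) :=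
    ι.differentiable.comp_differentiableOn hγd
  have hB : ∀ t ∈ ball (0 : ℂ) ρ, ι (γ t) ∈ ball (0 : PE n) B := fun t ht => E.hΩB _ (hγΩ t ht)
  have hgc : ∀ t ∈ ball (0 : ℂ) ρ, ∀ c, c ≠ k → g c (γ t) = g c p := by
    intro t ht c hc
    have := along E.hΩo (hg c) hγd' hγΩ (fun s hs => hXg _ (hγΩ s hs) c hc) t ht
    rw [hγ0] at this
    exact this
  -- Böttcher coordinates of all escaping critical points
  have hEfar : ∀ t ∈ ball (0 : ℂ) ρ, ∀ i ∈ Ee, R₃ < ‖(fx a n (ι (γ t)))^[M] (ι (γ t) (some i))‖ :=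
    fun t ht i hi => by have := E.hΩE _ (hγΩ t ht) i hi; linarith
  have hrepE : ∀ i ∈ Ee, rep (cls i) ∈ Ee := fun i hi => by
    rw [hEc, F.crp]; exact (hEc i).mp hi
  have hφc : ∀ t ∈ ball (0 : ℂ) ρ, ∀ i ∈ Ee,
      φ (ι (γ t), (fx a n (ι (γ t)))^[M] (ι (γ t) (some i))) =
        φ (ι p, (fx a n (ι p))^[M] (ι p (some i))) := by
    intro t ht i hi
    have hi' := (hEc i).mp hi
    have hik : cls i ≠ k := fun h => hk (h ▸ hi')
    have hG : DifferentiableOn ℂ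
        (fun t => φ (ι (γ t), (fx a n (ι (γ t)))^[M] (ι (γ t) (some i)))) (ball 0 ρ) := by
      have h3 : DifferentiableOn ℂ
          (fun t => ((ι (γ t), (fx a n (ι (γ t)))^[M] (ι (γ t) (some i))) : PE n × ℂ))
          (ball 0 ρ) :=
        hιγd.prodMk ((crit_diff a n M i).comp_differentiableOn hιγd)
      exact hb.φd.comp h3 (fun t ht => ⟨hB t ht, hEfar t ht i hi⟩)
    have hnorm : ∀ t ∈ ball (0 : ℂ) ρ,
        ‖φ (ι (γ t), (fx a n (ι (γ t)))^[M] (ι (γ t) (some i)))‖ =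
          ‖φ (ι (γ 0), (fx a n (ι (γ 0)))^[M] (ι (γ 0) (some i)))‖ := by
      have hst : ∀ t ∈ ball (0 : ℂ) ρ,
          ‖φ (ι (γ t), (fx a n (ι (γ t)))^[M] (ι (γ t) (some i)))‖ = ‖g (cls i) p‖ := by
        intro t ht
        rw [← hgc t ht (cls i) hik, hgE (cls i) hi']
        apply phi_norm_eq F.hn hb (hB t ht) (hEfar t ht i hi) (hEfar t ht _ (hrepE i hi))
        intro l
        rw [← Function.iterate_add_apply, ← Function.iterate_add_apply]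
        exact F.nrm (γ t) i (l + M)
      intro t ht
      rw [hst t ht, hst 0 h0]
    have h1 := const_of_norm hG hnorm t ht
    rw [hγ0] at h1
    exact h1
  set F0 : Fin n → ℂ := fun i => φ (ι p, (fx a n (ι p))^[M] (ι p (some i))) with hF0
  have hF1 : ∀ i ∈ Ee, R₃ < ‖F0 i‖ := by
    intro i hi
    have h1 := E.hΩE p hp i hi
    have h2 := hb.φc (ι p) (E.hΩB p hp) ((fx a n (ι p))^[M] (ι p (some i))) (by linarith)
    have h3 := norm_sub_norm_le ((fx a n (ι p))^[M] (ι p (some i))) (F0 i)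
    rw [norm_sub_rev] at h3
    simp only [hF0] at h3 ⊢
    linarith
  have hGW : GW a n 1 M B R₃ ψ ∅ Ee id (fun _ => 0) F0 ρ (fun t => ι (γ t)) :=
    { hρ := hρ
      γd := hιγd
      γB := hB
      A0s := fun t _ i hi => absurd hi (Finset.notMem_empty i)
      lam := fun t _ i hi => absurd hi (Finset.notMem_empty i)
      kne := fun t _ i hi => absurd hi (Finset.notMem_empty i)
      rel := fun t _ i hi => absurd hi (Finset.notMem_empty i)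
      ref := ⟨fun i hi => absurd hi (Finset.notMem_empty i),
        fun i hi => absurd hi (Finset.notMem_empty i),
        fun i hi => absurd hi (Finset.notMem_empty i)⟩
      dis := fun t _ i hi => absurd hi (Finset.notMem_empty i)
      rat := fun t _ i hi => absurd hi (Finset.notMem_empty i)
      F1 := hF1
      esc := by
        intro t ht i hi
        have h5 := hb.ψφ (ι (γ t)) (hB t ht) _ (hEfar t ht i hi)
        rw [← h5, hφc t ht i hi]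
      cen := by
        intro t ht
        exact along (g := fun y => cf a n n (ι y)) E.hΩo (cfι_diff a n ι n).differentiableOn hγd'
          hγΩ (fun s hs => hXc _ (hγΩ s hs)) t ht }
  obtain ⟨r₀, hr₀, hr₀ρ, hloc⟩ := loc_H H (N := N) (R₇ := R₇) (lam₀ := 1 / 2) (lam₁ := 1 / 2)
    (r₁ := r₁) (r₂ := r₂) (r' := r₁ / 2) (τ := 1) (R₄ := R₄) (R₅ := R₅) (rg := rg) (c₀ := c₀)
    (v := v) F.ha F.hn one_pos hb E.hR₇ E.hKL hGW
    (fun i hi => absurd hi (Finset.notMem_empty i)) (by have := E.hKL.r1; positivity)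
    (by have := E.hKL.r1; linarith) one_pos
    (fun i hi => absurd hi (Finset.notMem_empty i)) (by
      intro l _ hl m hm
      refine ⟨?_, fun i hi => absurd hi (Finset.notMem_empty i)⟩
      simp only [hγ0]
      rw [F.nrm p l m]
      exact hLB (cls l) (fun h => hl ((hEc l).mpr h)) m hm) E.hR₄ E.hR₅ E.hc₀ E.hv E.hgain
  have hsub : ∀ t ∈ ball (0 : ℂ) r₀, t ∈ ball (0 : ℂ) ρ := fun t ht => ball_subset_ball hr₀ρ ht
  refine ⟨r₀, γ, hr₀, hγ0, hγd.mono hsub, fun t ht => ⟨hγΩ t (hsub t ht), hgc t (hsub t ht)⟩,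
    ⟨⟨j, hj⟩, ?_⟩, ?_⟩
  · have e1 : HasDerivAt (fun t => cf a n j (ι (γ t)))
        (fderiv ℂ (fun y => cf a n j (ι y)) (γ 0) (X (γ 0))) 0 :=
      (cfι_diff a n ι j (γ 0)).hasFDerivAt.comp_hasDerivAt 0 (hγd' 0 h0)
    show deriv (fun t => cf a n j (ι (γ t))) 0 ≠ 0
    rw [e1.deriv, hγ0]
    exact hpj
  · intro r hr hrr η hη q hq
    obtain ⟨θ, hθ⟩ := hloc r hr hrr η hη q hq
    refine ⟨θ, ?_⟩
    have hDl : ∀ x y : PE n, ∑ j : Fin (n + 2), ‖cf a n j y - cf a n j x‖ ^ 2 = Dl a n x y := by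
      intro x y
      rw [Dl_eq, Finset.sum_range]
    simp only [hDl]
    have h2 : 2 * (c₀ / 2) = c₀ := by ring
    rw [h2]
    exact hθ

end

end Run7.h598.ST
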