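import Mathlib
import Pool.Agent.Run7.h598.ST.Fam
import Pool.Agent.Run7.h598.QT.AreaLim
import Pool.Agent.Run7.h598.TT.Fin
import Pool.Agent.W820.BM.Asm3
import Pool.Agent.W820.BM.Asm6
import Pool.Agent.W973.BM.Fx

/-!
All types in a linear family, near a polynomial whose filled Julia set has zero area.
-/

set_option autoImplicit false

open Topology Filter Metric Set Polynomial MeasureTheory
open Pool.Agent.H713R3.ZA
open Pool.Agent.H713R5.QJ
open Run7.h598.TT Run7.h598.QT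

namespace Run7.h598.ST

section
variable {a : ℂ} {n s r : ℕ} {ι : PE s →L[ℂ] PE n} {cls : Fin n → Fin r} {rep : Fin r → Fin n}
  {κ : Fin r → Option (Fin s)}

theorem speed_diff' {s : ℕ} {G : PE s → ℂ} (hG : Differentiable ℂ G) {Ω : Set (PE s)}
    (hΩ : IsOpen Ω) {X : PE s → PE s} (hX : DifferentiableOn ℂ X Ω) :
    DifferentiableOn ℂ (fun x => fderiv ℂ G x (X x)) Ω := by
  have h1 : ∀ x, fderiv ℂ G x (X x) =
      ∑ k, X x k * fderiv ℂ G x (fun l => if k = l then 1 else 0) := by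
    intro x
    have := LinearMap.pi_apply_eq_sum_univ ((fderiv ℂ G x) : PE s →ₗ[ℂ] ℂ) (X x)
    simpa using this
  have h2 : (fun x => fderiv ℂ G x (X x)) = fun x =>
      ∑ k, X x k * fderiv ℂ G x (fun l => if k = l then 1 else 0) := funext h1
  rw [h2]
  apply DifferentiableOn.fun_sum
  intro k _
  apply DifferentiableOn.mul
  · exact (differentiableOn_pi.mp hX) k
  · exact Pool.Agent.Helper540.differentiableOn_fderiv_apply hΩ hG.differentiableOn _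

/-- a small sphere on which the polynomials are different from the given one -/
theorem sphere_s (H : HH) (F : Fm a ι cls rep κ) (yT : PE s) {ρ₀ : ℝ} (hρ₀ : 0 < ρ₀) :
    ∃ ρ₂ n₀ : ℝ, 0 < ρ₂ ∧ ρ₂ < ρ₀ ∧ 0 < n₀ ∧
      ∀ y ∈ sphere yT ρ₂, n₀ ≤ Dl a n (ι yT) (ι y) := by
  obtain ⟨ρs, hρs, hsep⟩ := H.sep n a (ι yT) F.hn F.ha
  have hι0 := norm_nonneg ι
  obtain ⟨ρ₂, hρ₂⟩ : ∃ ρ₂ : ℝ, ρ₂ = min (ρ₀ / 2) (ρs / (‖ι‖ + 1)) := ⟨_, rfl⟩
  have hρ₂0 : 0 < ρ₂ := by rw [hρ₂]; exact lt_min (by positivity) (by positivity)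
  obtain ⟨n₁, hn₁, hsph⟩ : ∃ n₀ : ℝ, 0 < n₀ ∧ ∀ y ∈ sphere yT ρ₂, n₀ ≤ Dl a n (ι yT) (ι y) := by
    apply (isCompact_sphere yT ρ₂).exists_forall_le'
      (((Dl_continuous a n (ι yT)).comp ι.continuous).continuousOn)
    intro y hy
    have h1 := Dl_nonneg a n (ι yT) (ι y)
    rcases h1.lt_or_eq with h2 | h2
    · exact h2
    · exfalso
      rw [mem_sphere, dist_eq_norm] at hy
      have h3 : fam a n (ι y) = fam a n (ι yT) := by
        ext j
        by_cases hj : j < n + 1 + 1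
        · have h4 := (Finset.sum_eq_zero_iff_of_nonneg
            (fun (j : ℕ) _ => by positivity)).mp h2.symm j (Finset.mem_range.mpr hj)
          have h5 : ‖(fam a n (ι y)).coeff j - (fam a n (ι yT)).coeff j‖ = 0 := by
            exact pow_eq_zero_iff (two_ne_zero) |>.mp h4
          exact sub_eq_zero.mp (norm_eq_zero.mp h5)
        · rw [coeff_eq_zero_of_natDegree_lt (by have := natDegree_fam_le a n (ι y); omega),
            coeff_eq_zero_of_natDegree_lt (by have := natDegree_fam_le a n (ι yT); omega)]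
      have h6 : ‖ι y - ι yT‖ ≤ ρs := by
        rw [← map_sub]
        refine (ι.le_opNorm _).trans ?_
        rw [hy]
        have h7 : ρ₂ ≤ ρs / (‖ι‖ + 1) := by rw [hρ₂]; exact min_le_right _ _
        rw [le_div_iff₀ (by positivity)] at h7
        nlinarith
      have h4 := F.inj (hsep (ι y) h6 h3)
      rw [h4, sub_self, norm_zero] at hy
      linarith
  refine ⟨ρ₂, n₁, hρ₂0, ?_, hn₁, hsph⟩
  rw [hρ₂]
  exact (min_le_left _ _).trans_lt (by linarith)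

/-- the functions which are moved -/
noncomputable def us (a : ℂ) (n : ℕ) (ι : PE s →L[ℂ] PE n) (rep : Fin r → Fin n) (mm : Fin r → ℕ)
    (rr : Fin r → Option (Fin r)) (c : Fin r) (y : PE s) : ℂ :=
  (fx a n (ι y))^[mm c] (ι y (some (rep c))) - (rr c).elim 0 (fun l => ι y (some (rep l)))

theorem us_none {mm : Fin r → ℕ} {rr : Fin r → Option (Fin r)} {c : Fin r}
    (h : rr c = none) (y : PE s) :
    us a n ι rep mm rr c y = (fx a n (ι y))^[mm c] (ι y (some (rep c))) := by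
  unfold us
  rw [h]
  simp

theorem us_some {mm : Fin r → ℕ} {rr : Fin r → Option (Fin r)} {c l : Fin r}
    (h : rr c = some l) (y : PE s) : us a n ι rep mm rr c y =
      (fx a n (ι y))^[mm c] (ι y (some (rep c))) - ι y (some (rep l)) := by
  unfold us
  rw [h]
  rfl

theorem us_diff (a : ℂ) (n : ℕ) (ι : PE s →L[ℂ] PE n) (rep : Fin r → Fin n) (mm : Fin r → ℕ)
    (rr : Fin r → Option (Fin r)) (c : Fin r) : Differentiable ℂ (us a n ι rep mm rr c) := by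
  have h0 : Differentiable ℂ (fun y : PE s => (fx a n (ι y))^[mm c] (ι y (some (rep c)))) :=
    (crit_diff a n (mm c) (rep c)).comp ι.differentiable
  rcases h : rr c with _ | l
  · have h1 : us a n ι rep mm rr c = fun y => (fx a n (ι y))^[mm c] (ι y (some (rep c))) :=
      funext fun y => us_none h y
    rw [h1]
    exact h0
  · have h1 : us a n ι rep mm rr c = fun y =>
        (fx a n (ι y))^[mm c] (ι y (some (rep c))) - ι y (some (rep l)) :=
      funext fun y => us_some h y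
    rw [h1]
    have h2 : Differentiable ℂ (fun y : PE s => ι y (some (rep l))) :=
      fun y => (differentiableAt_pi.mp (ι.differentiable y)) (some (rep l))
    exact h0.sub h2

theorem main_s (H : HH) (F : Fm a ι cls rep κ) (yT : PE s)
    (hvol : volume (KJ (fam a n (ι yT))) = 0) {ε : ℝ} (hε : 0 < ε) (k : ℕ)
    (τt : Fin r → Option (Fin k))
    (hesc : ∀ c, Tendsto (fun l : ℕ => ‖(fx a n (ι yT))^[l] (ι yT (some (rep c)))‖) atTop atTop →
      τt c = none)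
    (hτt : ∀ j, ∃ c, τt c = some j) (N₀ : ℕ) :
    ∃ (y : PE s) (p : Fin k → ℕ) (z : Fin k → ℂ), ‖y - yT‖ < ε ∧
      Function.Injective p ∧
      (∀ j, (p j).Prime ∧ N₀ ≤ p j ∧ (fx a n (ι y))^[p j] (z j) = z j ∧
        fx a n (ι y) (z j) ≠ z j ∧ ‖deriv ((fx a n (ι y))^[p j]) (z j)‖ < 1) ∧
      (∀ c, τt c = none →
        Tendsto (fun l : ℕ => ‖(fx a n (ι y))^[l] (ι y (some (rep c)))‖) atTop atTop) ∧
      ∀ c j, τt c = some j →
        Tendsto (fun l : ℕ => (fx a n (ι y))^[p j * l] (ι y (some (rep c)))) atTop (𝓝 (z j)) := by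
  classical
  have ha := F.ha
  have hn := F.hn
  obtain ⟨B, hB⟩ : ∃ B : ℝ, B = ‖ι yT‖ + 2 := ⟨_, rfl⟩
  have hB0 : 0 < B := by have := norm_nonneg (ι yT); linarith
  obtain ⟨R, C₁, R₁, R₃, ψ, φ, hb⟩ := exists_boett H.bsum H.inv ha hn hB0
  have hb1 := hb.hR; have hb2 := hb.hC; have hb3 := hb.hR₁; have hb4 := hb.hR₃
  obtain ⟨R₇, hR₇⟩ : ∃ R₇ : ℝ, R₇ = R₃ + C₁ := ⟨_, rfl⟩
  obtain ⟨R₄, R₅, rg, c₀, v, hR₄, hR₄0, hR₅, hrg, hc₀, hv, hgain⟩ :=
    H.gainp H.dic a n B (R₇ + 3 * C₁) ha hn hB0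
  obtain ⟨r₁, r₂, hr₁1, hKL⟩ := H.ko3 H.ko0 a n 1 B (1 / 2) (1 / 2) 1 ha hn one_pos hB0
    (by norm_num) (by norm_num) one_pos
  have hr₁ := hKL.r1
  obtain ⟨RA, hRA, hRAB, hgrow, hap2⟩ := Pool.Agent.W346.BM.ap2 a n B ha hn
  obtain ⟨CA, hCA, hatt⟩ := Pool.Agent.W346.BM.att a n B RA hB0.le (by linarith)
  obtain ⟨ε₁, hε₁, hfix⟩ := W973.BM.fx_ (fam a n (ι yT))
    (by rw [natDegree_fam ha]; omega) hvol
  -- the escaping critical points
  set Ee : Finset (Fin n) := Finset.univ.filter (fun i =>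
    Tendsto (fun l : ℕ => ‖(fx a n (ι yT))^[l] (ι yT (some i))‖) atTop atTop) with hEe
  set Ec : Finset (Fin r) := Finset.univ.filter (fun c =>
    Tendsto (fun l : ℕ => ‖(fx a n (ι yT))^[l] (ι yT (some (rep c)))‖) atTop atTop) with hEcd
  have hEem : ∀ i, i ∈ Ee ↔
      Tendsto (fun l : ℕ => ‖(fx a n (ι yT))^[l] (ι yT (some i))‖) atTop atTop := fun i => by
    simp [hEe]
  have hEcm : ∀ c, c ∈ Ec ↔
      Tendsto (fun l : ℕ => ‖(fx a n (ι yT))^[l] (ι yT (some (rep c)))‖) atTop atTop := fun c => by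
    simp [hEcd]
  have hEc : ∀ i, i ∈ Ee ↔ cls i ∈ Ec := by
    intro i
    rw [hEem, hEcm]
    have h1 : (fun l : ℕ => ‖(fx a n (ι yT))^[l] (ι yT (some i))‖) =
        fun l : ℕ => ‖(fx a n (ι yT))^[l] (ι yT (some (rep (cls i))))‖ :=
      funext fun l => F.nrm yT i l
    rw [h1]
  obtain ⟨M, hM⟩ : ∃ M : ℕ, ∀ i ∈ Ee, R₃ + 2 * C₁ < ‖(fx a n (ι yT))^[M] (ι yT (some i))‖ := by
    have h1 : ∀ᶠ M : ℕ in atTop, ∀ i ∈ Ee,
        R₃ + 2 * C₁ < ‖(fx a n (ι yT))^[M] (ι yT (some i))‖ := by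
      rw [Filter.eventually_all_finset]
      intro i hi
      exact ((hEem i).mp hi).eventually (eventually_gt_atTop _)
    exact h1.exists
  -- a small ball
  have hcritc : ∀ (m : ℕ) (i : Fin n), Continuous (fun y : PE s =>
      (fx a n (ι y))^[m] (ι y (some i))) := fun m i => (crit_cont a n m i).comp ι.continuous
  have hevA : ∀ᶠ y in 𝓝 yT, ι y ∈ ball (0 : PE n) B := by
    have h1 : ι yT ∈ ball (0 : PE n) B := by rw [mem_ball_zero_iff]; linarith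
    exact ι.continuous.continuousAt.eventually (isOpen_ball.mem_nhds h1)
  have hevB : ∀ᶠ y in 𝓝 yT, ∀ i ∈ Ee, R₃ + 2 * C₁ < ‖(fx a n (ι y))^[M] (ι y (some i))‖ := by
    rw [Filter.eventually_all_finset]
    intro i hi
    exact (hcritc M i).norm.continuousAt.eventually (lt_mem_nhds (hM i hi))
  obtain ⟨ε₂, hε₂, hcoeff⟩ := coeff_close a n (ι yT) hε₁
  have hevC : ∀ᶠ y in 𝓝 yT, ‖ι y - ι yT‖ < ε₂ := by
    have h1 : Continuous (fun y : PE s => ‖ι y - ι yT‖) :=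
      (ι.continuous.sub continuous_const).norm
    exact h1.continuousAt.eventually (gt_mem_nhds (by simpa using hε₂))
  obtain ⟨ρ', hρ', hball⟩ := Metric.eventually_nhds_iff_ball.1 (hevA.and (hevB.and hevC))
  obtain ⟨ρ₀, hρ₀, hρ₀1, hρ₀2⟩ : ∃ ρ₀ : ℝ, 0 < ρ₀ ∧ ρ₀ ≤ ρ' ∧ ρ₀ ≤ ε :=
    ⟨min ρ' ε, lt_min hρ' hε, min_le_left _ _, min_le_right _ _⟩
  obtain ⟨ρ₂, n₀, hρ₂0, hρ₂ρ, hn₀, hsph⟩ := sphere_s H F yT hρ₀
  set Ω : Set (PE s) := ball yT ρ₀ with hΩ
  have hΩo : IsOpen Ω := isOpen_ball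
  have hΩc : IsPreconnected Ω := (convex_ball yT ρ₀).isPreconnected
  have hyTΩ : yT ∈ Ω := mem_ball_self hρ₀
  have hin : ∀ y ∈ Ω, _ := fun y hy => hball y (ball_subset_ball hρ₀1 hy)
  set L₀ : Set (PE s) := closedBall yT ρ₂ with hL₀
  have hL₀c : IsCompact L₀ := isCompact_closedBall yT ρ₂
  have hL₀Ω : L₀ ⊆ Ω := closedBall_subset_ball hρ₂ρ
  have hyTL : yT ∈ L₀ := mem_closedBall_self hρ₂0.le
  have hE : EnvS a n s M ι B R C₁ R₁ R₃ R₇ r₁ r₂ R₄ R₅ rg c₀ v ψ φ Ee Ω :=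
    { hb := hb
      hR₇ := hR₇.ge
      hKL := hKL
      hR₄ := hR₄
      hR₅ := hR₅
      hc₀ := hc₀
      hv := hv
      hgain := hgain
      hΩo := hΩo
      hΩB := fun y hy => (hin y hy).1
      hΩE := fun y hy => (hin y hy).2.1 }
  have hLB' : ∀ y ∈ L₀, ‖ι y‖ ≤ B := fun y hy => (mem_ball_zero_iff.mp (hE.hΩB y (hL₀Ω hy))).le
  -- the budget
  set Bc : Finset (Fin r) := Finset.univ.filter (fun c => c ∉ Ec) with hBc
  have hBcm : ∀ c, c ∈ Bc ↔ c ∉ Ec := fun c => by simp [hBc]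
  obtain ⟨θ, hθ⟩ : ∃ θ : ℝ, θ = c₀ / 2 * n₀ / (2 * 2 ^ Bc.card) := ⟨_, rfl⟩
  have hθ0 : 0 < θ := by rw [hθ]; positivity
  have hsmall : (2 : ℝ) ^ Bc.card * (2 * θ) ≤ c₀ / 2 * n₀ := by
    rw [hθ]
    apply le_of_eq
    field_simp
  obtain ⟨-, hlim⟩ := area_lim (P := 1) (r' := r₁ / 2) (τ := 1) hb hR₇.ge (Es := ∅)
    (rf := id) (hE.hΩB yT hyTΩ)
  obtain ⟨N, hN⟩ := hlim (θ / 4) (by positivity)
  rw [hvol, ENNReal.toReal_zero, zero_add] at hN
  -- the numbers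
  obtain ⟨s₀, hs₀⟩ : ∃ s₀ : ℕ, RA ≤ 2 ^ s₀ := by
    obtain ⟨s₀, hs₀⟩ := pow_unbounded_of_one_lt RA (by norm_num : (1 : ℝ) < 2)
    exact ⟨s₀, hs₀.le⟩
  obtain ⟨M₀, hM₀, hap2⟩ := hap2 (N + s₀)
  obtain ⟨Nf, hNf⟩ : ∃ Nf : ℕ, 2 * (1 / 2 : ℝ) ^ Nf < ε₁ := by
    obtain ⟨Nf, h⟩ := exists_pow_lt_of_lt_one (show (0 : ℝ) < ε₁ / 2 by positivity)
      (by norm_num : (1 / 2 : ℝ) < 1)
    exact ⟨Nf, by linarith⟩
  obtain ⟨Λ, hΛ⟩ : ∃ Λ : ℝ, Λ = Real.log (4 * RA) := ⟨_, rfl⟩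
  have hΛ0 : 0 ≤ Λ := by rw [hΛ]; exact Real.log_nonneg (by linarith)
  have hlogC : 0 ≤ Real.log CA := Real.log_nonneg (by linarith)
  obtain ⟨M', m1, m2, m3, m4, m5, m6, m7, m8, m9⟩ := exists_Mq k N M₀ (max N₀ Nf) (CA := CA)
    (Rh := RA + 1) (Λ := Λ) hCA
  obtain ⟨p, hpinj, hp⟩ := Pool.Agent.W820.BM.exists_primes k M' m1
  choose rj hrj using hτt
  have hrj0 : ∀ j, rj j ∉ Ec := by
    intro j hj
    have h1 := hesc (rj j) ((hEcm _).mp hj)
    rw [hrj j] at h1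
    simp at h1
  set mm : Fin r → ℕ := fun i => (τt i).elim M' p with hmm
  set rr : Fin r → Option (Fin r) := fun i => (τt i).map rj with hrr
  have hmmM : ∀ i, M' ≤ mm i := by
    intro i
    simp only [hmm]
    cases τt i with
    | none => exact le_rfl
    | some j => exact (hp j).2.1
  obtain ⟨u, hu⟩ : ∃ u : Fin r → PE s → ℂ, u = us a n ι rep mm rr := ⟨_, rfl⟩
  have hud : ∀ c, Differentiable ℂ (u c) := fun c => by rw [hu]; exact us_diff a n ι rep mm rr c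
  obtain ⟨g, hg⟩ : ∃ g : Fin r → PE s → ℂ, g = fun c y => if c ∈ Ec then
      φ (ι y, (fx a n (ι y))^[M] (ι y (some (rep c)))) else u c y := ⟨_, rfl⟩
  have hgE : ∀ c ∈ Ec, ∀ y, g c y = φ (ι y, (fx a n (ι y))^[M] (ι y (some (rep c)))) := by
    intro c hc y
    rw [hg]
    exact if_pos hc
  have hgB : ∀ c, c ∉ Ec → g c = u c := by
    intro c hc
    rw [hg]
    funext y
    exact if_neg hc
  have hrepE : ∀ c ∈ Ec, rep c ∈ Ee := fun c hc => by rw [hEc, F.crp]; exact hc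
  have hgd : ∀ c, DifferentiableOn ℂ (g c) Ω := by
    intro c
    by_cases hc : c ∈ Ec
    · have h1 : g c = fun y => φ (ι y, (fx a n (ι y))^[M] (ι y (some (rep c)))) :=
        funext (hgE c hc)
      rw [h1]
      have h3 : DifferentiableOn ℂ
          (fun y : PE s => ((ι y, (fx a n (ι y))^[M] (ι y (some (rep c)))) : PE n × ℂ)) Ω :=
        ι.differentiable.differentiableOn.prodMk
          ((crit_diff a n M (rep c)).comp ι.differentiable).differentiableOn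
      exact hb.φd.comp h3 (fun y hy => ⟨hE.hΩB y hy, by
        have := hE.hΩE y hy (rep c) (hrepE c hc)
        show R₃ < _
        linarith⟩)
    · rw [hgB c hc]; exact (hud c).differentiableOn
  -- the fields
  have hfield := fun l : Fin r => exists_fld H F hΩo ⟨yT, hyTΩ⟩ hgd l
  choose X jj hjj hXd hXg hXc hXne using hfield
  set sp : Fin r → PE s → ℂ := fun l y => fderiv ℂ (fun y => cf a n (jj l) (ι y)) y (X l y)
    with hsp
  have hspd : ∀ l ∈ Bc, DifferentiableOn ℂ (sp l) Ω := fun l _ =>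
    speed_diff' (cfι_diff a n ι (jj l)) hΩo (hXd l)
  set f₀ : PE s → ℂ := fun y => ∏ l ∈ Bc, sp l y with hf₀
  have hf₀d : DifferentiableOn ℂ f₀ Ω := Pool.Agent.H713R5.QJ.prod_diff Bc sp hspd
  -- the level `N` area
  obtain ⟨AN, hAN⟩ : ∃ AN : PE s → ℝ, AN = ANs a n N R₃ R₇ r₁ φ ι := ⟨_, rfl⟩
  have hOO : ∀ y ∈ Ω, ι y ∈ OO a n 1 M B R₃ ∅ Ee := fun y hy =>
    ⟨hE.hΩB y hy, fun i hi => absurd hi (Finset.notMem_empty i), fun i hi => by
      have := hE.hΩE y hy i hi; linarith⟩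
  have hRFP : RFP n ∅ id (fun _ => 0) :=
    { mem := fun i hi => absurd hi (Finset.notMem_empty i)
      idem := fun i hi => absurd hi (Finset.notMem_empty i)
      zero := fun i hi => absurd hi (Finset.notMem_empty i) }
  obtain ⟨hOo, -⟩ := H.nud H.ko0 H.ko1 H.ko2 H.ko3 a n 1 M B R₃ ∅ Ee id (fun _ => 0) ha hn one_pos
    hRFP
  have hlsc : LowerSemicontinuousOn AN L₀ := by
    have h1 := H.lscp H.ko0 H.ko1 H.ko2 H.ko3 a n 1 M N B R C₁ R₁ R₃ R₇ (1 / 2) (1 / 2) r₁ r₂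
      (r₁ / 2) 1 ψ φ ∅ Ee id (ι '' L₀) ha hn one_pos hb hR₇.ge hKL (by positivity)
      (by linarith) one_pos (by
        rintro _ ⟨y, hy, rfl⟩
        exact hOO y (hL₀Ω hy)) (fun x _ i hi => absurd hi (Finset.notMem_empty i))
    rw [hAN]
    exact h1.comp ι.continuous.continuousOn (mapsTo_image _ _)
  -- the starting point
  have hDT : ∀ y : PE s, ∑ j : Fin (n + 2), ‖cf a n j (ι y) - cf a n j (ι yT)‖ ^ 2 =
      Dl a n (ι yT) (ι y) := by
    intro y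
    rw [Dl_eq, Finset.sum_range]
  have hDl0 : Dl a n (ι yT) (ι yT) = 0 := by simp [Dl]
  have hev2 : ∀ᶠ y in 𝓝 yT, c₀ / 2 * Dl a n (ι yT) (ι y) < θ / 4 := by
    have h1 : Continuous (fun y : PE s => c₀ / 2 * Dl a n (ι yT) (ι y)) :=
      continuous_const.mul ((Dl_continuous a n (ι yT)).comp ι.continuous)
    exact h1.continuousAt.eventually (gt_mem_nhds (by
      simp only [hDl0, mul_zero]; positivity))
  have hev3 : ∀ᶠ y in 𝓝 yT, AN y ≤ θ / 4 + θ / 4 := by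
    have h1 := usc_BN (P := 1) (N := N) (rf := id) (τ := 1) (r' := r₁ / 2) H ha hn one_pos hb
      hR₇.ge hKL (by linarith) hOo (subset_refl _)
      (fun x _ i hi => absurd hi (Finset.notMem_empty i)) (hOO yT hyTΩ)
      (show 0 < θ / 4 by positivity)
    have h2 := ι.continuous.continuousAt.eventually h1
    filter_upwards [h2] with y hy
    rw [hAN]
    unfold ANs
    linarith
  have hev4 : ∀ᶠ y in 𝓝 yT, ∀ l : Fin r, ‖(fx a n (ι y))^[mm l] (ι y (some (rep l))) -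
      (fx a n (ι yT))^[mm l] (ι yT (some (rep l)))‖ < 1 / 2 := by
    rw [Filter.eventually_all]
    intro l
    have h1 := ((hcritc (mm l) (rep l)).sub
      (continuous_const (y := (fx a n (ι yT))^[mm l] (ι yT (some (rep l)))))).norm
    exact h1.continuousAt.eventually (gt_mem_nhds (by simp))
  have hev5 : ∀ᶠ y in 𝓝 yT, y ∈ ball yT ρ₂ := isOpen_ball.mem_nhds (mem_ball_self hρ₂0)
  obtain ⟨W, hWev, hWo, hyTW⟩ := _root_.eventually_nhds_iff.mp
    (hev2.and (hev3.and (hev4.and hev5)))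
  obtain ⟨x₂, hx₂W, hx₂sp⟩ := exists_ne H.iden Bc sp hΩo hΩc hspd (fun l _ => hXne l) W hWo
    ⟨yT, hyTW⟩ (fun y hy => hL₀Ω (ball_subset_closedBall (hWev y hy).2.2.2))
  obtain ⟨w2, w3, w4, w5⟩ := hWev x₂ hx₂W
  have hx₂L : x₂ ∈ L₀ := ball_subset_closedBall w5
  -- the functional
  obtain ⟨Fm, hFm⟩ := hL₀c.exists_bound_of_continuousOn (hf₀d.continuousOn.mono hL₀Ω)
  have hFm0 : 0 ≤ Fm := (norm_nonneg _).trans (hFm x₂ hx₂L)
  obtain ⟨ff, hff⟩ : ∃ ff : PE s → ℂ, ff = fun y => ((Fm + 1 : ℝ) : ℂ)⁻¹ * f₀ y := ⟨_, rfl⟩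
  have hffd : DifferentiableOn ℂ ff Ω := by rw [hff]; exact hf₀d.const_mul _
  have hFmc : ((Fm + 1 : ℝ) : ℂ)⁻¹ ≠ 0 := by
    rw [Ne, inv_eq_zero, Complex.ofReal_eq_zero]
    linarith
  have hff1 : ∀ x ∈ L₀, ‖ff x‖ ≤ 1 := by
    intro x hx
    simp only [hff]
    rw [norm_mul, norm_inv, Complex.norm_real, Real.norm_eq_abs, abs_of_pos (by linarith),
      inv_mul_le_iff₀ (by linarith)]
    linarith [hFm x hx]
  have hfj : ∀ l ∈ Bc, ∀ x, ff x ≠ 0 →
      fderiv ℂ (fun y => cf a n (jj l) (ι y)) x (X l x) ≠ 0 := by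
    intro l hl x hfx
    have h1 : f₀ x ≠ 0 := by
      rw [hff] at hfx
      exact right_ne_zero_of_mul hfx
    exact Finset.prod_ne_zero_iff.mp h1 l hl
  have hfx₂ : ff x₂ ≠ 0 := by
    rw [hff]
    exact mul_ne_zero hFmc (Finset.prod_ne_zero_iff.mpr hx₂sp)
  obtain ⟨δ, hδ⟩ : ∃ δ : ℝ, δ = θ / 4 / (|Real.log ‖ff x₂‖| + 1) := ⟨_, rfl⟩
  have hδ0 : 0 < δ := by rw [hδ]; positivity
  have hδ1 : -(δ * Real.log ‖ff x₂‖) ≤ θ / 4 := by
    have h1 : -Real.log ‖ff x₂‖ ≤ |Real.log ‖ff x₂‖| + 1 := by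
      have := neg_abs_le (Real.log ‖ff x₂‖)
      linarith
    have h2 := mul_le_mul_of_nonneg_left h1 hδ0.le
    have h3 : δ * (|Real.log ‖ff x₂‖| + 1) = θ / 4 := by
      rw [hδ]; field_simp
    linarith
  have hVx₂ : VV (Jc := Fin (n + 2)) (fun j y => cf a n j (ι y)) (fun j => cf a n j (ι yT)) AN ff
      (c₀ / 2) δ x₂ ≤ θ := by
    unfold VV
    rw [hDT]
    linarith
  -- bounds
  have hxr : ∀ y ∈ L₀, ∀ i : Fin n, ‖ι y (some i)‖ ≤ B := fun y hy i =>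
    (norm_le_pi_norm (ι y) (some i)).trans (hLB' y hy)
  have hKb : ∀ l, l ∉ Ec → ∀ m : ℕ, ‖(fx a n (ι yT))^[m] (ι yT (some (rep l)))‖ < RA := by
    intro l hl m
    by_contra hcon
    push Not at hcon
    exact hl ((hEcm l).mpr (Pool.Agent.W820.BM.escapes hRA (hgrow (ι yT) (hLB' yT hyTL)) hcon))
  have hx₂b : ∀ l, l ∉ Ec → ‖(fx a n (ι x₂))^[mm l] (ι x₂ (some (rep l)))‖ ≤ RA + 1 / 2 := by
    intro l hl
    have h1 := hKb l hl (mm l)
    have h2 := w4 l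
    have h3 := norm_add_le ((fx a n (ι x₂))^[mm l] (ι x₂ (some (rep l))) -
      (fx a n (ι yT))^[mm l] (ι yT (some (rep l)))) ((fx a n (ι yT))^[mm l] (ι yT (some (rep l))))
    rw [sub_add_cancel] at h3
    linarith
  have hux₂ : ∀ c ∈ Bc, ‖u c x₂‖ ≤ 4 * RA := by
    intro c hc
    have h0 := hx₂b c ((hBcm c).mp hc)
    rcases hr : rr c with _ | l
    · rw [hu, us_none hr]; linarith
    · rw [hu, us_some hr]
      refine (norm_sub_le _ _).trans ?_
      have := hxr x₂ hx₂L (rep l)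
      linarith
  have hst : ∀ c ∈ Bc, τt c = none → ‖u c x₂‖ ≤ 2 * RA := by
    intro c hc hr
    have h0 := hx₂b c ((hBcm c).mp hc)
    have h1 : rr c = none := by simp only [hrr, hr, Option.map_none]
    rw [hu, us_none h1]
    linarith
  -- large values
  obtain ⟨Y, hY⟩ : ∃ Y : ℝ, Y = Real.exp ((M' : ℝ) ^ 2) - (RA + 1) := ⟨_, rfl⟩
  rw [← hY] at m7 m8
  have hfar : ∀ y ∈ L₀, ∀ c, ‖u c y‖ < Y → ∀ m ≤ N,
      ‖(fx a n (ι y))^[m] (ι y (some (rep c)))‖ < R₃ := by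
    intro y hy c hc m hm
    by_contra hcon
    push Not at hcon
    have h1 := far_far hb hs₀ hM₀ hap2 (hLB' y hy) hm hcon (m2.trans (hmmM c))
    have h2 : Real.exp ((M' : ℝ) ^ 2) ≤ Real.exp ((mm c : ℝ) ^ 2) := by
      apply Real.exp_le_exp.mpr
      have h3 : (M' : ℝ) ≤ mm c := by exact_mod_cast hmmM c
      exact pow_le_pow_left₀ (Nat.cast_nonneg _) h3 2
    rcases hr : rr c with _ | l
    · rw [hu, us_none hr] at hc; linarith
    · rw [hu, us_some hr] at hc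
      have h3 := norm_sub_norm_le ((fx a n (ι y))^[mm c] (ι y (some (rep c))))
        (ι y (some (rep l)))
      have h4 := hxr y hy (rep l)
      linarith
  -- the numbers, continued
  have hCAi0 : 0 < CA⁻¹ := inv_pos.mpr (by linarith)
  have hCAi1 : CA⁻¹ ≤ 1 := inv_le_one_of_one_le₀ (by linarith)
  have hCAi2 : CA⁻¹ ≤ 1 / 2 := by
    rw [inv_le_comm₀ (by linarith) (by norm_num)]
    linarith
  obtain ⟨ra, hra⟩ : ∃ ra : ℝ, ra = CA⁻¹ ^ (2 ^ k * M') := ⟨_, rfl⟩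
  have hra0 : 0 < ra := by rw [hra]; positivity
  have hra1 : ra ≤ 1 := by
    rw [hra]
    exact pow_le_one₀ hCAi0.le hCAi1
  obtain ⟨G, hG⟩ : ∃ G : ℝ, G = 2 ^ k * M' * Real.log CA := ⟨_, rfl⟩
  have hraG : -Real.log ra ≤ G := by
    rw [hra, hG, Real.log_pow, Real.log_inv]
    push_cast
    linarith
  have hM'1 : (1 : ℝ) ≤ M' := by exact_mod_cast m1
  -- the iteration
  have hdisc : ∀ c ∈ Bc, ∀ q ∈ L₀, ff q ≠ 0 →
      ∑ j : Fin (n + 2), ‖cf a n j (ι q) - cf a n j (ι yT)‖ ^ 2 < n₀ →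
      (∀ i ∈ Bc, ‖u i q‖ < Y) →
      Disc (Jc := Fin (n + 2)) (fun j y => cf a n j (ι y)) AN L₀ u Bc ff (c₀ / 2) c q := by
    intro c hc q hq hfq hDq huq
    obtain ⟨r₀, γ, hr₀, hγ0, hγd, hγp, hder, hloc⟩ := disc_s H F (N := N) hE hEc hgd hgE
      ((hBcm c).mp hc) (hjj c) (hXd c) (hXg c) (hXc c) (hL₀Ω hq) (hfj c hc q hfq)
      (fun l hl m hm => hfar q hq l (huq l ((hBcm l).mpr hl)) m hm)
    rw [← hAN] at hloc
    have h0 : (0 : ℂ) ∈ ball (0 : ℂ) r₀ := mem_ball_self hr₀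
    have hγc : ContinuousAt γ 0 := hγd.continuousOn.continuousAt (isOpen_ball.mem_nhds h0)
    have hq' : q ∈ ball yT ρ₂ := by
      rcases (mem_closedBall.mp hq).lt_or_eq with h1 | h1
      · exact mem_ball.mpr h1
      · rw [hDT] at hDq
        exact absurd (hsph q (mem_sphere.mpr h1)) (not_le.mpr hDq)
    have e1 : ∀ᶠ t in 𝓝 (0 : ℂ), γ t ∈ ball yT ρ₂ :=
      hγc.eventually (isOpen_ball.mem_nhds (by rw [hγ0]; exact hq'))
    have e2 : ∀ᶠ t in 𝓝 (0 : ℂ), ff (γ t) ≠ 0 := by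
      have h1 : ContinuousAt ff (γ 0) := by
        rw [hγ0]
        exact hffd.continuousOn.continuousAt (hΩo.mem_nhds (hL₀Ω hq))
      exact (ContinuousAt.comp (f := γ) (g := ff) h1 hγc).eventually_ne
        (by show ff (γ 0) ≠ 0; rw [hγ0]; exact hfq)
    obtain ⟨s', hs', hsb⟩ := Metric.eventually_nhds_iff_ball.1 (e1.and e2)
    have hmono : ball (0 : ℂ) (min s' r₀) ⊆ ball 0 r₀ := ball_subset_ball (min_le_right _ _)
    refine ⟨min s' r₀, γ, lt_min hs' hr₀, hγ0, hγd.mono hmono, ?_, ?_, hder, ?_⟩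
    · intro t ht
      obtain ⟨f1, f2⟩ := hsb t (ball_subset_ball (min_le_left _ _) ht)
      refine ⟨ball_subset_closedBall f1, f2, fun i hi hic => ?_⟩
      have h1 := (hγp t (hmono ht)).2 i hic
      rwa [hgB i ((hBcm i).mp hi)] at h1
    · exact hffd.comp (hγd.mono hmono) (fun t ht => (hγp t (hmono ht)).1)
    · intro r hr hrr η hη q hq
      exact hloc r hr (hrr.trans_le (min_le_right _ _)) η hη q hq
  obtain ⟨y, hyL, -, -, -, hdone⟩ := abs_iter (J := Fin r) (Jc := Fin (n + 2))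
    (cf := fun j y => cf a n j (ι y)) (fun j => cfι_diff a n ι j)
    (τ := fun j => cf a n j (ι yT)) (AN := AN) (fun q => by
      rw [hAN]; exact ENNReal.toReal_nonneg) hL₀c hlsc hud
    (hffd.continuousOn.mono hL₀Ω) hff1 (Bc := Bc) (c := c₀ / 2) (n₀ := n₀) (Y := Y) (δ := δ)
    (θ := θ) (Rh := RA) (Z := (M' : ℝ) ^ 2 / 2) (Λ := Λ) (G := G) (ra := ra) (by positivity) hδ0
    hθ0 hRA hra0 hra1 hraG (by linarith) m8 hΛ.ge (by rw [hG]; linarith) (by positivity) hdisc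
    (ty := fun c => τt c = none) hx₂L hfx₂ hVx₂ hux₂ hst hsmall Bc (subset_refl _)
  -- the conclusions
  have hyΩ := hL₀Ω hyL
  have hyB := hLB' y hyL
  have hgx := hgrow (ι y) hyB
  have hcl : ∀ c j, τt c = some j →
      ‖(fx a n (ι y))^[p j] (ι y (some (rep c))) - ι y (some (rep (rj j)))‖ ≤ CA⁻¹ ^ (p j) := by
    intro c j hcj
    have hc2 : c ∉ Ec := by
      intro hc
      have h1 := hesc c ((hEcm c).mp hc)
      rw [hcj] at h1
      simp at h1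
    have h1 : rr c = some (rj j) := by simp only [hrr, hcj, Option.map_some]
    have h2 := (hdone c ((hBcm c).mpr hc2)).2 (by rw [hcj]; simp)
    rw [hu, us_some h1] at h2
    have h3 : mm c = p j := by simp only [hmm, hcj, Option.elim]
    rw [h3] at h2
    refine h2.trans ?_
    rw [hra]
    exact pow_le_pow_of_le_one hCAi0.le hCAi1 (hp j).2.2
  have hsink : ∀ j, ∃ z : ℂ, (fx a n (ι y))^[p j] z = z ∧ fx a n (ι y) z ≠ z ∧
      ‖deriv ((fx a n (ι y))^[p j]) z‖ < 1 ∧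
      ∀ w : ℂ, ‖(fx a n (ι y))^[p j] w - ι y (some (rep (rj j)))‖ ≤ CA⁻¹ ^ (p j) →
        Tendsto (fun l : ℕ => (fx a n (ι y))^[p j * l] w) atTop (𝓝 z) := by
    intro j
    have hm : 1 ≤ p j := (hp j).1.one_lt.le
    have hclj := hcl (rj j) j (hrj j)
    have hpow : CA⁻¹ ^ (p j) ≤ 1 / 2 := by
      calc CA⁻¹ ^ (p j) ≤ CA⁻¹ ^ 1 := pow_le_pow_of_le_one hCAi0.le hCAi1 hm
        _ ≤ 1 / 2 := by rw [pow_one]; exact hCAi2
    have hxr' : ‖ι y (some (rep (rj j)))‖ ≤ B := hxr y hyL _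
    have hcritj : deriv (fx a n (ι y)) (ι y (some (rep (rj j)))) = 0 := by
      rw [deriv_fx, Finset.prod_eq_zero (Finset.mem_univ (rep (rj j))) (sub_self _), mul_zero]
    have horb : ∀ l ≤ p j, ‖(fx a n (ι y))^[l] (ι y (some (rep (rj j))))‖ ≤ RA := by
      intro l hl
      by_contra hcon
      push Not at hcon
      have h1 := Pool.Agent.W820.BM.grow hRA hgx hcon.le (p j - l)
      rw [← Function.iterate_add_apply, Nat.sub_add_cancel hl] at h1
      have h3 := norm_add_le ((fx a n (ι y))^[p j] (ι y (some (rep (rj j)))) -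
        ι y (some (rep (rj j)))) (ι y (some (rep (rj j))))
      rw [sub_add_cancel] at h3
      linarith
    obtain ⟨z, hz1, hz2, hz3, hz4⟩ := hatt (ι y) hyB (ι y (some (rep (rj j)))) hcritj (p j) hm
      horb hclj
    refine ⟨z, hz1, ?_, hz3, hz4⟩
    intro hfz
    have h1 : Nf ≤ p j := (le_max_right N₀ Nf).trans (m3.trans (hp j).2.1)
    have h2 : 2 * CA⁻¹ ^ (p j) < ε₁ := by
      have h3 : CA⁻¹ ^ (p j) ≤ (1 / 2 : ℝ) ^ (p j) := pow_le_pow_left₀ hCAi0.le hCAi2 _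
      have h4 : (1 / 2 : ℝ) ^ (p j) ≤ (1 / 2 : ℝ) ^ Nf :=
        pow_le_pow_of_le_one (by norm_num) (by norm_num) h1
      linarith
    have h3 := hfix (fam a n (ι y)) (by rw [natDegree_fam ha, natDegree_fam ha])
      (fun j => hcoeff (ι y) (hin y hyΩ).2.2 j) z (ι y (some (rep (rj j)))) hfz (by
        have h5 : deriv (fx a n (ι y)) (ι y (some (rep (rj j)))) =
          (derivative (fam a n (ι y))).eval (ι y (some (rep (rj j)))) := (fam a n (ι y)).deriv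
        rw [← h5]; exact hcritj)
    linarith
  choose z hz1 hz2 hz3 hz4 using hsink
  refine ⟨y, p, z, ?_, hpinj, fun j => ⟨(hp j).1, (le_max_left N₀ Nf).trans (m3.trans (hp j).2.1),
    hz1 j, hz2 j, hz3 j⟩, ?_, ?_⟩
  · have h1 := mem_ball_iff_norm.mp hyΩ
    linarith
  · intro c hc
    by_cases hc2 : c ∈ Ec
    · have h1 := hE.hΩE y hyΩ (rep c) (hrepE c hc2)
      exact esc_of_large hb (hE.hΩB y hyΩ) (k := M) (by linarith)
    · have h1 : rr c = none := by simp only [hrr, hc, Option.map_none]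
      have h2 := (hdone c ((hBcm c).mpr hc2)).1 hc
      rw [hu, us_none h1] at h2
      exact Pool.Agent.W820.BM.escapes hRA hgx (m := mm c) (by rw [h2]; linarith)
  · intro c j hcj
    exact hz4 j _ (hcl c j hcj)

end

end Run7.h598.ST
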