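import Mathlib
import Pool.Agent.Run7.h598.ST.Main

/-!
Polynomials with a rotational symmetry and prescribed multiplicities of the critical points.
-/

set_option autoImplicit false

open Topology Filter Metric Set Polynomial MeasureTheory
open Pool.Agent.H713R3.ZA
open Pool.Agent.H713R5.QJ
open Run7.h598.TT Run7.h598.QT

namespace Run7.h598.ST

/-- the orbit of `u` under the rotations by the powers of `ω` -/
noncomputable def orb (ω : ℂ) (q : ℕ) (u : ℂ) : Finset ℂ :=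
  (Finset.range q).image (fun l => ω ^ l * u)

/-- indices of the critical points -/
abbrev II (r : ℕ) (o m : Fin r → ℕ) : Type := Σ i : Fin r, Fin (o i) × Fin (m i)

theorem rot_pow {ω : ℂ} {N : ℕ} (h : ω ^ N = 1) (l : Fin N) :
    ω ^ ((finRotate N l : Fin N) : ℕ) = ω * ω ^ (l : ℕ) := by
  rcases N with _ | N
  · exact l.elim0
  · rw [finRotate_apply, Fin.val_add, ← pow_eq_pow_mod _ h, pow_add, mul_comm]
    congr 1
    rcases N with _ | N
    · simp at h ⊢
      exact h.symm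
    · simp

section
variable (q r : ℕ) (ω : ℂ) (c : Fin r → ℂ) (m : Fin r → ℕ)

/-- size of the orbits -/
noncomputable def oo (i : Fin r) : ℕ := if c i = 0 then 1 else q

open Classical in
/-- the coefficients of the family -/
noncomputable def zI (x : II r (oo q r c) m) : ℂ :=
  if c x.1 = 0 ∧ ω ≠ 1 then 0 else ω ^ ((x.2.1 : Fin _) : ℕ)

/-- the rotation of the indices -/
noncomputable def rotI : II r (oo q r c) m ≃ II r (oo q r c) m :=
  Equiv.sigmaCongrRight (fun i => (finRotate (oo q r c i)).prodCongr (Equiv.refl _))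

end

section
variable {q r n : ℕ} {ω a : ℂ} {c : Fin r → ℂ} {m : Fin r → ℕ}

theorem oo_pos (hq : 1 ≤ q) (i : Fin r) : 0 < oo q r c i := by
  unfold oo
  split_ifs <;> omega

theorem rotI_fst (x : II r (oo q r c) m) : (rotI q r c m x).1 = x.1 := rfl

theorem zI_rot (hω : ω ^ q = 1) (x : II r (oo q r c) m) :
    zI q r ω c m (rotI q r c m x) = ω * zI q r ω c m x := by
  obtain ⟨i, l, t⟩ := x
  have h0 : rotI q r c m ⟨i, l, t⟩ = ⟨i, finRotate _ l, t⟩ := rfl
  rw [h0]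
  unfold zI
  by_cases h : c i = 0 ∧ ω ≠ 1
  · rw [if_pos h, if_pos h, mul_zero]
  · rw [if_neg h, if_neg h]
    apply rot_pow
    by_cases hc : c i = 0
    · have h1 : ω = 1 := by
        by_contra h2
        exact h ⟨hc, h2⟩
      rw [h1, one_pow]
    · unfold oo
      rw [if_neg hc]
      exact hω

theorem zI_zero (x : II r (oo q r c) m) (hx : c x.1 = 0 ∧ ω ≠ 1) : zI q r ω c m x = 0 := by
  unfold zI
  rw [if_pos hx]

theorem zI_ne (x : II r (oo q r c) m) (hx : ¬ (c x.1 = 0 ∧ ω ≠ 1)) :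
    zI q r ω c m x = ω ^ ((x.2.1 : Fin _) : ℕ) := by
  unfold zI
  rw [if_neg hx]

/-- the product over the indices -/
theorem prod_orb (hω : IsPrimitiveRoot ω q) (hq : 1 ≤ q) {s : Fin r → ℂ}
    (h0 : ∀ i, c i = 0 → ω ≠ 1 → s i = 0) (h1 : ∀ i, c i ≠ 0 → ω ≠ 1 → s i ≠ 0) :
    ∏ x : II r (oo q r c) m, (X - C (zI q r ω c m x * s x.1)) =
      ∏ i, ∏ w ∈ orb ω q (s i), (X - C w) ^ (m i) := by
  classical
  have hq1 : ω = 1 → q = 1 := fun h => by
    rw [h] at hω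
    exact hω.unique IsPrimitiveRoot.one
  rw [Fintype.prod_sigma]
  apply Finset.prod_congr rfl
  intro i _
  rw [Fintype.prod_prod_type]
  have e1 : ∀ l : Fin (oo q r c i), ∏ t : Fin (m i),
      (X - C (zI q r ω c m ⟨i, (l, t)⟩ * s i) : ℂ[X]) =
        (fun l : ℕ => (X - C ((if c i = 0 ∧ ω ≠ 1 then 0 else ω ^ l) * s i)) ^ (m i)) (l : ℕ) := by
    intro l
    have h2 : ∀ t : Fin (m i), zI q r ω c m ⟨i, (l, t)⟩ =
        if c i = 0 ∧ ω ≠ 1 then 0 else ω ^ (l : ℕ) := fun t => rfl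
    simp only [h2]
    rw [Finset.prod_const, Finset.card_univ, Fintype.card_fin]
  rw [Finset.prod_congr rfl (fun l _ => e1 l), ← Finset.prod_range
    (fun l : ℕ => (X - C ((if c i = 0 ∧ ω ≠ 1 then 0 else ω ^ l) * s i)) ^ (m i))]
  unfold orb
  by_cases hc : c i = 0
  · have e2 : oo q r c i = 1 := by unfold oo; rw [if_pos hc]
    rw [e2, Finset.prod_range_one]
    by_cases h : ω = 1
    · have hq' := hq1 h
      rw [hq', Finset.range_one, Finset.image_singleton, Finset.prod_singleton,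
        if_neg (fun h' => h'.2 h)]
    · rw [if_pos ⟨hc, h⟩, h0 i hc h]
      have e3 : (Finset.range q).image (fun l => ω ^ l * 0) = {(0 : ℂ)} := by
        ext w
        simp only [mul_zero, Finset.mem_image, Finset.mem_range, Finset.mem_singleton]
        constructor
        · rintro ⟨l, -, hl⟩
          exact hl.symm
        · intro hw
          exact ⟨0, by omega, hw.symm⟩
      rw [e3, Finset.prod_singleton, mul_zero]
  · have e2 : oo q r c i = q := by unfold oo; rw [if_neg hc]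
    rw [e2, Finset.prod_image]
    · apply Finset.prod_congr rfl
      intro l _
      rw [if_neg (fun h' => hc h'.1)]
    · intro l hl l' hl' hll
      have hl1 := Finset.mem_range.mp (Finset.mem_coe.mp hl)
      have hl2 := Finset.mem_range.mp (Finset.mem_coe.mp hl')
      by_cases h : ω = 1
      · have hq' := hq1 h
        omega
      · simp only at hll
        exact hω.pow_inj hl1 hl2 (mul_right_cancel₀ (h1 i hc h) hll)

/-- the parameter with given critical points and constant term -/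
noncomputable def xs (ω : ℂ) (e : II r (oo q r c) m ≃ Fin n) (t : ℂ) (s : Fin r → ℂ) : PE n :=
  fun o => o.elim t (fun j => zI q r ω c m (e.symm j) * s (e.symm j).1)

theorem xs_some (e : II r (oo q r c) m ≃ Fin n) (t : ℂ) (s : Fin r → ℂ) (j : Fin n) :
    xs ω e t s (some j) = zI q r ω c m (e.symm j) * s (e.symm j).1 := rfl

theorem xs_prod (e : II r (oo q r c) m ≃ Fin n) (t : ℂ) (s : Fin r → ℂ) :
    ∏ j : Fin n, (X - C (xs ω e t s (some j))) =
      ∏ x : II r (oo q r c) m, (X - C (zI q r ω c m x * s x.1)) := by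
  rw [← Equiv.prod_comp e.symm]
  rfl

/-- symmetry of the polynomials -/
theorem fam_sym {x : PE n} (σ : Equiv.Perm (Fin n)) (hσ : ∀ i, x (some (σ i)) = ω * x (some i))
    (h0 : x none = ω ^ (n + 1) * x none) :
    (fam a n x).comp (C ω * X) = C (ω ^ (n + 1)) * fam a n x := by
  have hd : derivative ((fam a n x).comp (C ω * X) - C (ω ^ (n + 1)) * fam a n x) = 0 := by
    rw [derivative_sub, derivative_comp, derivative_C_mul, derivative_C_mul, derivative_X, mul_one,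
      derivative_fam]
    unfold dfam
    rw [mul_comp, C_comp, prod_comp]
    have h1 : ∏ i : Fin n, ((X - C (x (some i)) : ℂ[X]).comp (C ω * X)) =
        C (ω ^ n) * ∏ i : Fin n, (X - C (x (some i))) := by
      rw [← Equiv.prod_comp σ]
      have h2 : ∀ i : Fin n, ((X - C (x (some (σ i))) : ℂ[X]).comp (C ω * X)) =
          C ω * (X - C (x (some i))) := by
        intro i
        rw [hσ, sub_comp, X_comp, C_comp, C_mul]
        ring
      simp only [h2]
      rw [Finset.prod_mul_distrib, Finset.prod_const, Finset.card_univ, Fintype.card_fin, C_pow]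
    rw [h1, pow_succ, C_mul, C_mul]
    ring
  have h2 := eq_C_of_derivative_eq_zero hd
  have h3 : ((fam a n x).comp (C ω * X) - C (ω ^ (n + 1)) * fam a n x).coeff 0 = 0 := by
    rw [coeff_zero_eq_eval_zero, eval_sub, eval_comp, eval_mul, eval_mul, eval_C, eval_X, mul_zero,
      eval_C, ← coeff_zero_eq_eval_zero, coeff_fam_zero, ← h0, sub_self]
  rw [h3, C_0] at h2
  exact sub_eq_zero.mp h2

theorem eval_sym {P : ℂ[X]} {N : ℕ} (h : P.comp (C ω * X) = C (ω ^ N) * P) (z : ℂ) :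
    P.eval (ω * z) = ω ^ N * P.eval z := by
  have h1 := congrArg (fun Q : ℂ[X] => Q.eval z) h
  simp only [eval_comp, eval_mul, eval_C, eval_X] at h1
  exact h1

theorem one_sym {f : ℂ → ℂ} {N : ℕ} (h : ∀ z, f (ω * z) = ω ^ N * f z) (l : ℕ) (z : ℂ) :
    f (ω ^ l * z) = ω ^ (l * N) * f z := by
  induction l with
  | zero => simp
  | succ l ih =>
    have h1 : ω ^ (l + 1) * z = ω * (ω ^ l * z) := by rw [pow_succ]; ring
    rw [h1, h, ih, ← mul_assoc, ← pow_add]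
    congr 2
    ring

theorem iter_sym {f : ℂ → ℂ} {N : ℕ} (h : ∀ z, f (ω * z) = ω ^ N * f z) (k l : ℕ) (z : ℂ) :
    f^[k] (ω ^ l * z) = ω ^ (l * N ^ k) * f^[k] z := by
  induction k with
  | zero => simp
  | succ k ih =>
    rw [Function.iterate_succ_apply', ih, one_sym h, Function.iterate_succ_apply']
    congr 2
    ring

theorem norm_iter_sym {f : ℂ → ℂ} {N : ℕ} (hω : ‖ω‖ = 1) (h : ∀ z, f (ω * z) = ω ^ N * f z)
    (k l : ℕ) (z : ℂ) : ‖f^[k] (ω ^ l * z)‖ = ‖f^[k] z‖ := by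
  rw [iter_sym h, norm_mul, norm_pow, hω, one_pow, one_mul]

/-- the linear maps -/
noncomputable def ιz {s' : ℕ} (ω : ℂ) (e : II r (oo q r c) m ≃ Fin n)
    (κ : Fin r → Option (Fin s')) (ζ₀ : ℂ) : PE s' →L[ℂ] PE n :=
  ContinuousLinearMap.pi (fun o => o.elim (ζ₀ • ContinuousLinearMap.proj none)
    (fun j => zI q r ω c m (e.symm j) • ContinuousLinearMap.proj (κ (e.symm j).1)))

open Classical in
theorem ιz_apply {s' : ℕ} (e : II r (oo q r c) m ≃ Fin n) (κ : Fin r → Option (Fin s'))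
    (ζ₀ : ℂ) (y : PE s') : ιz ω e κ ζ₀ y =
      xs ω e (ζ₀ * y none) (fun i => if c i = 0 ∧ ω ≠ 1 then 0 else y (κ i)) := by
  funext o
  rcases o with _ | j
  · simp [ιz, xs]
  · rw [xs_some]
    have h1 : ιz ω e κ ζ₀ y (some j) = zI q r ω c m (e.symm j) * y (κ (e.symm j).1) := by
      simp [ιz]
    rw [h1]
    by_cases h : c (e.symm j).1 = 0 ∧ ω ≠ 1
    · rw [zI_zero _ h, zero_mul, zero_mul]
    · rw [if_neg h]

theorem xs_sym (hω : ω ^ q = 1) (e : II r (oo q r c) m ≃ Fin n) (t : ℂ) (s : Fin r → ℂ)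
    (ht : t = ω ^ (n + 1) * t) :
    (fam a n (xs ω e t s)).comp (C ω * X) = C (ω ^ (n + 1)) * fam a n (xs ω e t s) := by
  refine fam_sym ((e.symm.trans (rotI q r c m)).trans e) ?_ ht
  intro i
  rw [xs_some, xs_some]
  have h1 : e.symm (((e.symm.trans (rotI q r c m)).trans e) i) = rotI q r c m (e.symm i) := by
    simp
  rw [h1, zI_rot hω, rotI_fst, mul_assoc]

/-- representatives of the classes -/
noncomputable def rp (hq : 1 ≤ q) (hm : ∀ i, 1 ≤ m i) (e : II r (oo q r c) m ≃ Fin n) (i : Fin r) :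
    Fin n := e ⟨i, (⟨0, oo_pos hq i⟩, ⟨0, hm i⟩)⟩

theorem zI_rp (hq : 1 ≤ q) (hm : ∀ i, 1 ≤ m i) (e : II r (oo q r c) m ≃ Fin n) (i : Fin r)
    (h : ¬ (c i = 0 ∧ ω ≠ 1)) : zI q r ω c m (e.symm (rp hq hm e i)) = 1 := by
  unfold rp
  rw [Equiv.symm_apply_apply, zI_ne _ h]
  simp

theorem zI_cls (hq : 1 ≤ q) (hm : ∀ i, 1 ≤ m i) (e : II r (oo q r c) m ≃ Fin n) (j : Fin n) :
    ∃ l : ℕ, zI q r ω c m (e.symm j) =
      ω ^ l * zI q r ω c m (e.symm (rp hq hm e (e.symm j).1)) := by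
  by_cases h : c (e.symm j).1 = 0 ∧ ω ≠ 1
  · refine ⟨0, ?_⟩
    rw [zI_zero _ h, zI_zero]
    · simp
    · unfold rp
      rw [Equiv.symm_apply_apply]
      exact h
  · refine ⟨((e.symm j).2.1 : Fin _), ?_⟩
    rw [zI_rp hq hm e _ h, mul_one, zI_ne _ h]

theorem rp_fst (hq : 1 ≤ q) (hm : ∀ i, 1 ≤ m i) (e : II r (oo q r c) m ≃ Fin n) (i : Fin r) :
    (e.symm (rp hq hm e i)).1 = i := by
  unfold rp
  rw [Equiv.symm_apply_apply]

/-- the families -/
theorem fm_of (ha : a ≠ 0) (hn : 1 ≤ n) (hω : IsPrimitiveRoot ω q) (hq : 1 ≤ q)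
    (hm : ∀ i, 1 ≤ m i) (e : II r (oo q r c) m ≃ Fin n) {s' : ℕ} {κ : Fin r → Option (Fin s')}
    (hκ : Function.Injective κ) {ζ₀ : ℂ} (hζ₀ : ζ₀ = 0 ∨ (ζ₀ = 1 ∧ ω ^ (n + 1) = 1))
    (hsur : ∀ c', (c' = none ∧ ζ₀ = 1) ∨ ∃ i, κ i = c' ∧ ¬ (c i = 0 ∧ ω ≠ 1))
    (hcen : ω ≠ 1 ∨ ∀ i, κ i ≠ none) :
    Fm a (ιz ω e κ ζ₀) (fun j => (e.symm j).1) (rp hq hm e) κ := by
  classical
  have hωq : ω ^ q = 1 := hω.pow_eq_one
  have hωn : ‖ω‖ = 1 := Complex.norm_eq_one_of_pow_eq_one hωq (by omega)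
  have hω0 : ω ≠ 0 := by
    intro h
    rw [h, norm_zero] at hωn
    exact zero_ne_one hωn
  have hsym : ∀ y : PE s', (fam a n (ιz ω e κ ζ₀ y)).comp (C ω * X) =
      C (ω ^ (n + 1)) * fam a n (ιz ω e κ ζ₀ y) := by
    intro y
    rw [ιz_apply]
    apply xs_sym hωq
    rcases hζ₀ with h | ⟨h, h'⟩
    · rw [h]; simp
    · rw [h', one_mul]
  refine
    { ha := ha
      hn := hn
      inj := ?_
      κi := hκ
      crp := rp_fst hq hm e
      nrm := ?_
      cen := ?_ }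
  · intro y y' hyy
    funext c'
    rcases hsur c' with ⟨h1, h2⟩ | ⟨i, h1, h2⟩
    · have h3 := congrFun hyy none
      rw [ιz_apply, ιz_apply] at h3
      have h4 : ζ₀ * y none = ζ₀ * y' none := h3
      rw [h2, one_mul, one_mul] at h4
      rw [h1]
      exact h4
    · have h3 := congrFun hyy (some (rp hq hm e i))
      rw [ιz_apply, ιz_apply, xs_some, xs_some, zI_rp hq hm e i h2, rp_fst, if_neg h2, if_neg h2,
        one_mul, one_mul] at h3
      rw [← h1]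
      exact h3
  · intro y j l
    obtain ⟨b, hb⟩ := zI_cls (ω := ω) hq hm e j
    have h1 : ιz ω e κ ζ₀ y (some j) =
        ω ^ b * ιz ω e κ ζ₀ y (some (rp hq hm e (e.symm j).1)) := by
      rw [ιz_apply, xs_some, xs_some, hb, rp_fst, mul_assoc]
    rw [h1]
    exact norm_iter_sym hωn (fun z => eval_sym (hsym y) z) l b _
  · rcases hcen with h | h
    · left
      have hz : ∀ y, (fam a n (ιz ω e κ ζ₀ y)).coeff n = 0 := by
        intro y
        have h1 := congrArg (fun Q : ℂ[X] => Q.coeff n) (hsym y)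
        simp only [comp_C_mul_X_coeff, coeff_C_mul] at h1
        have h2 : (fam a n (ιz ω e κ ζ₀ y)).coeff n * (ω ^ n * (1 - ω)) = 0 := by
          rw [pow_succ] at h1
          linear_combination h1
        rcases mul_eq_zero.mp h2 with h3 | h3
        · exact h3
        · exfalso
          rcases mul_eq_zero.mp h3 with h4 | h4
          · exact pow_ne_zero n hω0 h4
          · exact h (sub_eq_zero.mp h4).symm
      intro y
      rw [hz, hz]
    · exact Or.inr h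

/-- the types in a family -/
theorem types_of (H : HH) (ha : a ≠ 0) (hn : 1 ≤ n) (hω : IsPrimitiveRoot ω q) (hq : 1 ≤ q)
    (hm : ∀ i, 1 ≤ m i) (e : II r (oo q r c) m ≃ Fin n) {s' : ℕ} {κ : Fin r → Option (Fin s')}
    (hκ : Function.Injective κ) {ζ₀ : ℂ} (hζ₀ : ζ₀ = 0 ∨ (ζ₀ = 1 ∧ ω ^ (n + 1) = 1))
    (hsur : ∀ c', (c' = none ∧ ζ₀ = 1) ∨ ∃ i, κ i = c' ∧ ¬ (c i = 0 ∧ ω ≠ 1))
    (hcen : ω ≠ 1 ∨ ∀ i, κ i ≠ none) {t₀ : ℂ} {yT : PE s'} (hy0 : ζ₀ * yT none = t₀)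
    (hy1 : ∀ i, ¬ (c i = 0 ∧ ω ≠ 1) → yT (κ i) = c i)
    (hvol : volume (KJ (fam a n (xs ω e t₀ c))) = 0) {ε : ℝ} (hε : 0 < ε) (k : ℕ)
    (τt : Fin r → Option (Fin k))
    (hesc : ∀ i, Tendsto (fun l : ℕ => ‖(fx a n (xs ω e t₀ c))^[l] (c i)‖) atTop atTop →
      τt i = none)
    (hτt : ∀ j, ∃ i, τt i = some j) (N₀ : ℕ) :
    ∃ (t : ℂ) (s : Fin r → ℂ) (p : Fin k → ℕ) (z : Fin k → ℂ),
      t = ω ^ (n + 1) * t ∧ (∀ i, c i = 0 → ω ≠ 1 → s i = 0) ∧
      ‖xs ω e t s - xs ω e t₀ c‖ < ε ∧ (∀ i, ‖s i - c i‖ < ε) ∧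
      Function.Injective p ∧
      (∀ j, (p j).Prime ∧ N₀ ≤ p j ∧ (fx a n (xs ω e t s))^[p j] (z j) = z j ∧
        fx a n (xs ω e t s) (z j) ≠ z j ∧ ‖deriv ((fx a n (xs ω e t s))^[p j]) (z j)‖ < 1) ∧
      (∀ i, τt i = none →
        Tendsto (fun l : ℕ => ‖(fx a n (xs ω e t s))^[l] (s i)‖) atTop atTop) ∧
      ∀ i j, τt i = some j →
        Tendsto (fun l : ℕ => (fx a n (xs ω e t s))^[p j * l] (s i)) atTop (𝓝 (z j)) := by
  classical
  have F := fm_of ha hn hω hq hm e hκ hζ₀ hsur hcen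
  have hx0 : ιz ω e κ ζ₀ yT = xs ω e t₀ c := by
    rw [ιz_apply, hy0]
    have h1 : (fun i => if c i = 0 ∧ ω ≠ 1 then 0 else yT (κ i)) = c := by
      funext i
      by_cases h : c i = 0 ∧ ω ≠ 1
      · rw [if_pos h, h.1]
      · rw [if_neg h, hy1 i h]
    rw [h1]
  have hrp : ∀ (t : ℂ) (s : Fin r → ℂ), (∀ i, c i = 0 → ω ≠ 1 → s i = 0) → ∀ i,
      xs ω e t s (some (rp hq hm e i)) = s i := by
    intro t s hs i
    rw [xs_some, rp_fst]
    by_cases h : c i = 0 ∧ ω ≠ 1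
    · rw [hs i h.1 h.2, mul_zero]
    · rw [zI_rp hq hm e i h, one_mul]
  have hc0 : ∀ i, c i = 0 → ω ≠ 1 → c i = 0 := fun i h _ => h
  have hιn := norm_nonneg (ιz ω e κ ζ₀)
  obtain ⟨y, p, z, h1, h2, h3, h4, h5⟩ := main_s H F yT (by rw [hx0]; exact hvol)
    (ε := ε / (‖ιz ω e κ ζ₀‖ + 1)) (by positivity) k τt (by
      intro i hi
      rw [hx0, hrp t₀ c hc0] at hi
      exact hesc i hi) hτt N₀
  obtain ⟨s, hs⟩ : ∃ s : Fin r → ℂ, s = fun i => if c i = 0 ∧ ω ≠ 1 then 0 else y (κ i) :=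
    ⟨_, rfl⟩
  have hs0 : ∀ i, c i = 0 → ω ≠ 1 → s i = 0 := fun i h h' => by
    rw [hs]; exact if_pos ⟨h, h'⟩
  have hxy : ιz ω e κ ζ₀ y = xs ω e (ζ₀ * y none) s := by rw [ιz_apply, hs]
  have hclose : ‖xs ω e (ζ₀ * y none) s - xs ω e t₀ c‖ < ε := by
    rw [← hxy, ← hx0, ← map_sub]
    refine ((ιz ω e κ ζ₀).le_opNorm _).trans_lt ?_
    rw [lt_div_iff₀ (by positivity)] at h1
    have := norm_nonneg (y - yT)
    nlinarith
  rw [hxy] at h3
  simp only [hxy] at h4 h5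
  refine ⟨ζ₀ * y none, s, p, z, ?_, hs0, hclose, ?_, h2, h3, ?_, ?_⟩
  · rcases hζ₀ with h | ⟨h, h'⟩
    · rw [h]; simp
    · rw [h', one_mul]
  · intro i
    have h6 := norm_le_pi_norm (xs ω e (ζ₀ * y none) s - xs ω e t₀ c) (some (rp hq hm e i))
    rw [Pi.sub_apply, hrp _ s hs0, hrp _ c hc0] at h6
    exact h6.trans_lt hclose
  · intro i hi
    have := h4 i hi
    rwa [hrp _ s hs0] at this
  · intro i j hij
    have := h5 i j hij
    rwa [hrp _ s hs0] at this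

end

end Run7.h598.ST
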