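import Mathlib
import Pool.Agent.Run7.h598.ST.Sym

/-!
Choice of the family for a given polynomial.
-/

set_option autoImplicit false

open Topology Filter Metric Set Polynomial MeasureTheory
open Pool.Agent.H713R3.ZA
open Pool.Agent.H713R5.QJ
open Run7.h598.TT Run7.h598.QT

namespace Run7.h598.ST

/-- the indices of the parameters -/
theorem exists_kappa {ω : ℂ} {n r : ℕ} {c : Fin r → ℂ} (hdis : ∀ i j, i ≠ j → c i ≠ c j)
    (hr : 0 < r) {t₀ : ℂ} (h0 : (∃ i, c i = 0) → ω ≠ 1 → ω ^ (n + 1) = 1)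
    (h1 : (∀ i, c i ≠ 0) → ω ≠ 1 → t₀ = 0) :
    ∃ (s' : ℕ) (κ : Fin r → Option (Fin s')) (ζ₀ : ℂ) (yT : PE s'), Function.Injective κ ∧
      (ζ₀ = 0 ∨ (ζ₀ = 1 ∧ ω ^ (n + 1) = 1)) ∧
      (∀ c', (c' = none ∧ ζ₀ = 1) ∨ ∃ i, κ i = c' ∧ ¬ (c i = 0 ∧ ω ≠ 1)) ∧
      (ω ≠ 1 ∨ ∀ i, κ i ≠ none) ∧ ζ₀ * yT none = t₀ ∧
      ∀ i, ¬ (c i = 0 ∧ ω ≠ 1) → yT (κ i) = c i := by
  by_cases hω : ω = 1
  · refine ⟨r, some, 1, fun o => o.elim t₀ c, Option.some_injective _, Or.inr ⟨rfl, ?_⟩, ?_,
      Or.inr fun i => by simp, by simp, fun i _ => rfl⟩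
    · rw [hω, one_pow]
    · intro c'
      rcases c' with _ | i
      · exact Or.inl ⟨rfl, rfl⟩
      · exact Or.inr ⟨i, rfl, fun h => h.2 hω⟩
  · obtain ⟨r', rfl⟩ : ∃ r', r = r' + 1 := ⟨r - 1, by omega⟩
    by_cases hz : ∃ i, c i = 0
    · obtain ⟨i₀, hi₀⟩ := hz
      have hκ0 : finSuccEquiv' i₀ i₀ = none := finSuccEquiv'_at i₀
      refine ⟨r', finSuccEquiv' i₀, 1, fun o => o.elim t₀ (fun j => c ((finSuccEquiv' i₀).symm
        (some j))), (finSuccEquiv' i₀).injective, Or.inr ⟨rfl, h0 ⟨i₀, hi₀⟩ hω⟩, ?_, Or.inl hω,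
        by simp, ?_⟩
      · intro c'
        rcases c' with _ | j
        · exact Or.inl ⟨rfl, rfl⟩
        · right
          refine ⟨(finSuccEquiv' i₀).symm (some j), Equiv.apply_symm_apply _ _, fun h => ?_⟩
          have h2 : (finSuccEquiv' i₀).symm (some j) ≠ i₀ := by
            intro h3
            have h4 := congrArg (finSuccEquiv' i₀) h3
            rw [Equiv.apply_symm_apply, hκ0] at h4
            simp at h4
          exact hdis _ _ h2 (h.1.trans hi₀.symm)
      · intro i hi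
        have h2 : i ≠ i₀ := by
          intro h3
          exact hi ⟨h3 ▸ hi₀, hω⟩
        rcases h3 : finSuccEquiv' i₀ i with _ | j
        · exfalso
          apply h2
          apply (finSuccEquiv' i₀).injective
          rw [h3, hκ0]
        · show c ((finSuccEquiv' i₀).symm (some j)) = c i
          rw [← h3, Equiv.symm_apply_apply]
    · push Not at hz
      refine ⟨r', finSuccEquiv' 0, 0, fun o => c ((finSuccEquiv' 0).symm o),
        (finSuccEquiv' 0).injective, Or.inl rfl, ?_, Or.inl hω, ?_, ?_⟩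
      · intro c'
        exact Or.inr ⟨(finSuccEquiv' 0).symm c', Equiv.apply_symm_apply _ _, fun h => hz _ h.1⟩
      · rw [zero_mul, h1 hz hω]
      · intro i _
        show c ((finSuccEquiv' 0).symm (finSuccEquiv' 0 i)) = c i
        rw [Equiv.symm_apply_apply]

/-- a superattracting fixed point has a basin of positive area -/
theorem vol_pos_of_super {T : ℂ[X]} (h0 : T.eval 0 = 0) (h1 : (derivative T).eval 0 = 0) :
    volume {z : ℂ | ¬ Tendsto (fun k : ℕ => ‖(fun w : ℂ => T.eval w)^[k] z‖) atTop atTop} ≠ 0 := by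
  have hd : HasDerivAt (fun w : ℂ => T.eval w) 0 0 := by
    have := T.hasDerivAt 0
    rwa [h1] at this
  have h2 : ∀ᶠ z in 𝓝 (0 : ℂ), ‖T.eval z‖ ≤ ‖z‖ := by
    have h3 := hasDerivAt_iff_isLittleO.mp hd
    have h4 := h3.def (show (0 : ℝ) < 1 by norm_num)
    filter_upwards [h4] with z hz
    simpa [h0] using hz
  obtain ⟨ρ, hρ, hb⟩ := Metric.eventually_nhds_iff_ball.1 h2
  have hsub : ball (0 : ℂ) ρ ⊆
      {z : ℂ | ¬ Tendsto (fun k : ℕ => ‖(fun w : ℂ => T.eval w)^[k] z‖) atTop atTop} := by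
    intro z hz ht
    have hk : ∀ k : ℕ, (fun w : ℂ => T.eval w)^[k] z ∈ ball (0 : ℂ) ρ := by
      intro k
      induction k with
      | zero => exact hz
      | succ k ih =>
        rw [Function.iterate_succ_apply', mem_ball_zero_iff]
        exact (hb _ ih).trans_lt (mem_ball_zero_iff.mp ih)
    obtain ⟨k, hk'⟩ := (ht.eventually (eventually_gt_atTop ρ)).exists
    exact absurd (mem_ball_zero_iff.mp (hk k)) (not_lt.mpr hk'.le)
  intro hvol
  have := measure_mono_null hsub hvol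
  exact (measure_ball_pos volume (0 : ℂ) hρ).ne' this

theorem deriv_sym {T : ℂ[X]} {ω : ℂ} {N : ℕ} (h : ∀ z, T.eval (ω * z) = ω ^ N * T.eval z) :
    (derivative T).eval 0 * ω = ω ^ N * (derivative T).eval 0 := by
  have h1 : T.comp (C ω * X) = C (ω ^ N) * T := by
    apply Polynomial.funext
    intro z
    rw [eval_comp, eval_mul, eval_mul, eval_C, eval_X, eval_C]
    exact h z
  have h2 := congrArg (fun Q : ℂ[X] => (derivative Q).eval 0) h1
  simp only [derivative_comp, derivative_C_mul, derivative_X, mul_one, eval_mul, eval_C, eval_comp,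
    eval_X, mul_zero] at h2
  linear_combination h2

/-- exponents of the symmetry -/
theorem sym_cases {T : ℂ[X]} {ω : ℂ} {n : ℕ} (hω0 : ω ≠ 0)
    (h : ∀ z, T.eval (ω * z) = ω ^ (n + 1) * T.eval z)
    (hvol : volume {z : ℂ | ¬ Tendsto (fun k : ℕ => ‖(fun w : ℂ => T.eval w)^[k] z‖) atTop atTop} =
      0) :
    ((derivative T).eval 0 = 0 → ω ^ (n + 1) = 1) ∧
    ((derivative T).eval 0 ≠ 0 → ω ^ n = 1 ∧ (ω ≠ 1 → T.eval 0 = 0)) := by
  have h0 : T.eval 0 = ω ^ (n + 1) * T.eval 0 := by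
    have := h 0
    rwa [mul_zero] at this
  have hd := deriv_sym h
  constructor
  · intro h1
    by_contra h2
    have h3 : T.eval 0 = 0 := by
      by_contra h4
      apply h2
      have h5 : T.eval 0 * (ω ^ (n + 1) - 1) = 0 := by linear_combination -h0
      exact sub_eq_zero.mp ((mul_eq_zero.mp h5).resolve_left h4)
    exact vol_pos_of_super h3 h1 hvol
  · intro h1
    have hn : ω ^ n = 1 := by
      have h2 : (derivative T).eval 0 * ω * (ω ^ n - 1) = 0 := by
        rw [pow_succ] at hd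
        linear_combination -hd
      exact sub_eq_zero.mp ((mul_eq_zero.mp h2).resolve_left (mul_ne_zero h1 hω0))
    refine ⟨hn, fun h2 => ?_⟩
    rw [pow_succ, hn, one_mul] at h0
    have h5 : (1 - ω) * T.eval 0 = 0 := by linear_combination h0
    exact (mul_eq_zero.mp h5).resolve_left (fun h6 => h2 (sub_eq_zero.mp h6).symm)

/-- a positive number below finitely many positive numbers -/
theorem exists_below {ι : Type} [Finite ι] (f : ι → ℝ) (h : ∀ i, 0 < f i) :
    ∃ d : ℝ, 0 < d ∧ ∀ i, d < f i := by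
  have h1 : ∀ᶠ d : ℝ in 𝓝[>] 0, 0 < d ∧ ∀ i, d < f i := by
    apply (eventually_mem_nhdsWithin).and
    rw [Filter.eventually_all]
    intro i
    exact mem_nhdsWithin_of_mem_nhds (Iio_mem_nhds (h i))
  exact h1.exists

end Run7.h598.ST
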